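import Mathlib

set_option autoImplicit false

namespace Helper17.LinRec

open AddMonoidAlgebra

variable {K M B : Type*} [Field K] [AddCommMonoid M] [AddCommMonoid B] [LinearOrder B]
  [IsOrderedCancelAddMonoid B]

/-- `m` is the leading exponent of `u` with respect to the order given by `ω`. -/
def IsLead (ω : M →+ B) (u : AddMonoidAlgebra K M) (m : M) : Prop :=
  u.coeff m ≠ 0 ∧ ∀ m', u.coeff m' ≠ 0 → ω m' ≤ ω m

theorem exists_isLead (ω : M →+ B) (u : AddMonoidAlgebra K M) (hu : u ≠ 0) :
    ∃ m, IsLead ω u m := by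
  have hne : u.coeff.support.Nonempty := by
    rw [Finsupp.support_nonempty_iff]
    intro h
    exact hu (coeff_eq_zero.mp h)
  obtain ⟨m, hm, hmax⟩ := Finset.exists_max_image u.coeff.support ω hne
  exact ⟨m, Finsupp.mem_support_iff.mp hm, fun m' h => hmax m' (Finsupp.mem_support_iff.mpr h)⟩

theorem IsLead.unique {ω : M →+ B} (hω : Function.Injective ω) {u : AddMonoidAlgebra K M}
    {m m' : M} (h : IsLead ω u m) (h' : IsLead ω u m') : m = m' :=
  hω (le_antisymm (h'.2 m h.1) (h.2 m' h'.1))

theorem IsLead.ne_zero {ω : M →+ B} {u : AddMonoidAlgebra K M} {m : M} (h : IsLead ω u m) :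
    u ≠ 0 := by
  rintro rfl
  exact h.1 rfl

theorem exists_of_coeff_mul_ne_zero (u v : AddMonoidAlgebra K M) (k : M)
    (h : (u * v).coeff k ≠ 0) : ∃ a b, u.coeff a ≠ 0 ∧ v.coeff b ≠ 0 ∧ a + b = k := by
  classical
  rw [coeff_mul, Finsupp.sum] at h
  obtain ⟨a, ha, h1⟩ := Finset.exists_ne_zero_of_sum_ne_zero h
  rw [Finsupp.sum] at h1
  obtain ⟨b, hb, h2⟩ := Finset.exists_ne_zero_of_sum_ne_zero h1
  refine ⟨a, b, Finsupp.mem_support_iff.mp ha, Finsupp.mem_support_iff.mp hb, ?_⟩
  by_contra hne
  exact h2 (if_neg hne)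

theorem coeff_mul_lead {ω : M →+ B} (hω : Function.Injective ω) {u v : AddMonoidAlgebra K M}
    {m m' : M} (hu : ∀ a, u.coeff a ≠ 0 → ω a ≤ ω m) (hv : ∀ a, v.coeff a ≠ 0 → ω a ≤ ω m') :
    (u * v).coeff (m + m') = u.coeff m * v.coeff m' := by
  apply coeff_mul_add_of_uniqueAdd
  intro a b ha hb hab
  have h1 := hu a (Finsupp.mem_support_iff.mp ha)
  have h2 := hv b (Finsupp.mem_support_iff.mp hb)
  have h3 : ω a + ω b = ω m + ω m' := by rw [← map_add, ← map_add, hab]
  constructor
  · apply hω
    apply le_antisymm h1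
    by_contra hlt
    push Not at hlt
    have := add_lt_add_of_lt_of_le hlt h2
    rw [h3] at this
    exact lt_irrefl _ this
  · apply hω
    apply le_antisymm h2
    by_contra hlt
    push Not at hlt
    have := add_lt_add_of_le_of_lt h1 hlt
    rw [h3] at this
    exact lt_irrefl _ this

theorem IsLead.mul {ω : M →+ B} (hω : Function.Injective ω) {u v : AddMonoidAlgebra K M}
    {m m' : M} (hu : IsLead ω u m) (hv : IsLead ω v m') : IsLead ω (u * v) (m + m') := by
  refine ⟨?_, ?_⟩
  · rw [coeff_mul_lead hω hu.2 hv.2]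
    exact mul_ne_zero hu.1 hv.1
  · intro k hk
    obtain ⟨a, b, ha, hb, rfl⟩ := exists_of_coeff_mul_ne_zero u v k hk
    rw [map_add, map_add]
    exact add_le_add (hu.2 a ha) (hv.2 b hb)

theorem isLead_sub_of_lt {ω : M →+ B} {u v : AddMonoidAlgebra K M}
    {m : M} (hu : IsLead ω u m) (hv : ∀ a, v.coeff a ≠ 0 → ω a < ω m) : IsLead ω (u - v) m := by
  refine ⟨?_, ?_⟩
  · rw [coeff_sub, Finsupp.sub_apply]
    have : v.coeff m = 0 := by
      by_contra h
      exact lt_irrefl _ (hv m h)
    rw [this, sub_zero]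
    exact hu.1
  · intro k hk
    rw [coeff_sub, Finsupp.sub_apply] at hk
    by_cases hu' : u.coeff k = 0
    · have : v.coeff k ≠ 0 := by
        intro h
        rw [hu', h, sub_zero] at hk
        exact hk rfl
      exact (hv k this).le
    · exact hu.2 k hu'

/-- The diagonal derivation attached to an additive map `φ`. -/
noncomputable def der (φ : M →+ K) : AddMonoidAlgebra K M →+ AddMonoidAlgebra K M where
  toFun u := ofCoeff (u.coeff.sum fun m c => Finsupp.single m (φ m * c))
  map_zero' := by simp
  map_add' u v := by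
    rw [coeff_add, Finsupp.sum_add_index']
    · rfl
    · intro a; simp
    · intro a b c; rw [mul_add, Finsupp.single_add]

theorem coeff_der (φ : M →+ K) (u : AddMonoidAlgebra K M) (m : M) :
    (der φ u).coeff m = φ m * u.coeff m := by
  classical
  change (u.coeff.sum fun m c => Finsupp.single m (φ m * c)) m = _
  rw [Finsupp.sum_apply, Finsupp.sum]
  simp only [Finsupp.single_apply]
  rw [Finset.sum_ite_eq']
  split_ifs with h
  · rfl
  · rw [Finsupp.notMem_support_iff.mp h, mul_zero]

theorem der_single (φ : M →+ K) (m : M) (c : K) :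
    der φ (single m c) = single m (φ m * c) := by
  classical
  apply coeff_injective
  ext k
  rw [coeff_der, coeff_single, coeff_single, Finsupp.single_apply, Finsupp.single_apply]
  split_ifs with h
  · rw [h]
  · rw [mul_zero]

theorem der_mul (φ : M →+ K) (u v : AddMonoidAlgebra K M) :
    der φ (u * v) = der φ u * v + u * der φ v := by
  induction u using AddMonoidAlgebra.induction_linear with
  | zero => simp
  | add f g hf hg => rw [add_mul, map_add, map_add, hf, hg]; ring
  | single m c =>
    induction v using AddMonoidAlgebra.induction_linear with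
    | zero => simp
    | add f g hf hg => rw [mul_add, map_add, map_add, hf, hg]; ring
    | single m' c' =>
      rw [single_mul_single, der_single, der_single, der_single, single_mul_single,
        single_mul_single, map_add, ← single_add]
      congr 1
      ring

theorem der_key (φ : M →+ K) (X Y F : AddMonoidAlgebra K M) (hF : F = X ^ 3 - Y ^ 2) :
    Y * (2 * (X * der φ Y) - 3 * (Y * der φ X)) = 3 * (F * der φ X) - X * der φ F := by
  have h1 : der φ F = 3 * (X ^ 2 * der φ X) - 2 * (Y * der φ Y) := by
    rw [hF, map_sub, pow_succ, pow_two, pow_two, der_mul, der_mul, der_mul]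
    ring
  rw [h1, hF]
  ring

theorem coeff_natCast_mul (n : ℕ) (u : AddMonoidAlgebra K M) (m : M) :
    ((n : AddMonoidAlgebra K M) * u).coeff m = n * u.coeff m := by
  rw [← nsmul_eq_mul, ← nsmul_eq_mul]
  rfl

end Helper17.LinRec
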