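import Mathlib

set_option autoImplicit false

namespace Helper17.LinRec

open Filter Topology Polynomial

section Solve

variable {K : Type*} [Field K] [CharZero K]

theorem poly_solve (γ a : K) (hγ : γ ≠ 0) :
    ∀ (n : ℕ) (q : K[X]), (∀ k, n ≤ k → q.coeff k = 0) →
      ∃ h : K[X], C γ * h.comp (X + 1) - C a * h = q := by
  intro n
  induction n with
  | zero =>
    intro q hq
    refine ⟨0, ?_⟩
    have : q = 0 := by
      ext k
      rw [hq k (Nat.zero_le k), coeff_zero]
    rw [this]
    simp
  | succ n ih =>
    intro q hq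
    set c := q.coeff n with hc
    by_cases hγa : γ = a
    · set h0 : K[X] := C (c / (γ * (n + 1))) * X ^ (n + 1) with hh0
      obtain ⟨h1, hh1⟩ := ih (q - (C γ * h0.comp (X + 1) - C a * h0)) (by
        intro k hk
        have hn1 : ((n : K) + 1) ≠ 0 := by exact_mod_cast Nat.succ_ne_zero n
        have h2 : (C γ * h0.comp (X + 1) - C a * h0).coeff k =
            γ * (c / (γ * (n + 1))) * ((n + 1).choose k : K) -
            a * (c / (γ * (n + 1))) * (if k = n + 1 then 1 else 0) := by
          rw [hh0]
          simp only [mul_comp, C_comp, pow_comp, X_comp, coeff_sub, coeff_C_mul, coeff_X_add_one_pow,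
            coeff_X_pow]
          ring
        rw [coeff_sub, h2, ← hγa]
        rcases Nat.eq_or_lt_of_le hk with h | h
        · subst h
          rw [if_neg (by lia), ← hc, Nat.choose_succ_self_right]
          push_cast
          field_simp
          ring
        · rw [hq k h]
          rcases Nat.eq_or_lt_of_le (Nat.succ_le_of_lt h) with h' | h'
          · have hk1 : k = n + 1 := h'.symm
            rw [hk1, Nat.choose_self, if_pos rfl]
            ring
          · rw [Nat.choose_eq_zero_of_lt (by lia), if_neg (by lia)]
            ring)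
      refine ⟨h0 + h1, ?_⟩
      rw [add_comp]
      linear_combination hh1
    · set h0 : K[X] := C (c / (γ - a)) * X ^ n with hh0
      obtain ⟨h1, hh1⟩ := ih (q - (C γ * h0.comp (X + 1) - C a * h0)) (by
        intro k hk
        have hne : γ - a ≠ 0 := sub_ne_zero.mpr hγa
        have h2 : (C γ * h0.comp (X + 1) - C a * h0).coeff k =
            γ * (c / (γ - a)) * (n.choose k : K) -
            a * (c / (γ - a)) * (if k = n then 1 else 0) := by
          rw [hh0]
          simp only [mul_comp, C_comp, pow_comp, X_comp, coeff_sub, coeff_C_mul, coeff_X_add_one_pow,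
            coeff_X_pow]
          ring
        rw [coeff_sub, h2]
        rcases Nat.eq_or_lt_of_le hk with h | h
        · subst h
          rw [if_pos rfl, ← hc, Nat.choose_self]
          field_simp
          ring
        · rw [hq k h, Nat.choose_eq_zero_of_lt h, if_neg (by lia)]
          ring)
      refine ⟨h0 + h1, ?_⟩
      rw [add_comp]
      linear_combination hh1

theorem poly_solve' (γ a : K) (hγ : γ ≠ 0) (q : K[X]) :
    ∃ h : K[X], ∀ n : ℕ, h.eval ((n : K) + 1) * γ ^ (n + 1) - a * (h.eval (n : K) * γ ^ n) =
      q.eval (n : K) * γ ^ n := by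
  obtain ⟨h, hh⟩ := poly_solve γ a hγ (q.natDegree + 1) q (fun k hk =>
    coeff_eq_zero_of_natDegree_lt (by lia))
  refine ⟨h, fun n => ?_⟩
  have h1 := congrArg (fun p => Polynomial.eval (n : K) p) hh
  simp only [eval_sub, eval_mul, eval_C, eval_comp, eval_add, eval_X, eval_one] at h1
  rw [← h1]
  ring

end Solve

section EP

variable {K : Type*} [Field K] [CharZero K]

/-- `u` is eventually given by an exponential polynomial with nonzero bases satisfying `R`. -/
def EP (R : K → Prop) (u : ℕ → K) : Prop :=
  ∃ p : K →₀ K[X], (∀ γ ∈ p.support, γ ≠ 0 ∧ R γ) ∧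
    ∀ᶠ n : ℕ in atTop, u n = p.sum (fun γ q => q.eval (n : K) * γ ^ n)

omit [CharZero K] in
theorem EP.add {R : K → Prop} {u v : ℕ → K} (hu : EP R u) (hv : EP R v) :
    EP R (fun n => u n + v n) := by
  classical
  obtain ⟨p, hp, hp'⟩ := hu
  obtain ⟨q, hq, hq'⟩ := hv
  refine ⟨p + q, ?_, ?_⟩
  · intro γ hγ
    have := Finsupp.support_add hγ
    rw [Finset.mem_union] at this
    rcases this with h | h
    · exact hp γ h
    · exact hq γ h
  · filter_upwards [hp', hq'] with n h1 h2
    rw [h1, h2, Finsupp.sum_add_index']
    · intro a; simp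
    · intro a b c; rw [eval_add]; ring

omit [CharZero K] in
theorem EP.of_eventually_eq {R : K → Prop} {u v : ℕ → K} (hu : EP R u)
    (h : ∀ᶠ n in atTop, v n = u n) : EP R v := by
  obtain ⟨p, hp, hp'⟩ := hu
  refine ⟨p, hp, ?_⟩
  filter_upwards [hp', h] with n h1 h2
  rw [h2, h1]

omit [CharZero K] in
theorem EP.single {R : K → Prop} (γ : K) (hγ : γ ≠ 0) (hR : R γ) (q : K[X]) :
    EP R (fun n => q.eval (n : K) * γ ^ n) := by
  classical
  refine ⟨Finsupp.single γ q, ?_, ?_⟩
  · intro δ hδ
    have := Finsupp.support_single_subset hδ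
    rw [Finset.mem_singleton] at this
    rw [this]
    exact ⟨hγ, hR⟩
  · refine Eventually.of_forall (fun n => ?_)
    rw [Finsupp.sum_single_index]
    simp

omit [CharZero K] in
theorem EP.zero (R : K → Prop) : EP R (fun _ => (0 : K)) :=
  ⟨0, by simp, Eventually.of_forall fun n => by simp⟩

omit [CharZero K] in
theorem EP.finset_sum {R : K → Prop} {ι : Type*} (s : Finset ι) (u : ι → ℕ → K)
    (h : ∀ i ∈ s, EP R (u i)) : EP R (fun n => ∑ i ∈ s, u i n) := by
  classical
  induction s using Finset.induction_on with
  | empty => simpa using EP.zero R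
  | insert a s ha ih =>
    have h1 := (h a (Finset.mem_insert_self a s)).add
      (ih (fun i hi => h i (Finset.mem_insert_of_mem hi)))
    apply h1.of_eventually_eq
    refine Eventually.of_forall (fun n => ?_)
    rw [Finset.sum_insert ha]

theorem EP.step {R : K → Prop} {u : ℕ → K} (a : K) (ha : R a)
    (h : EP R (fun n => u (n + 1) - a * u n)) : EP R u := by
  classical
  obtain ⟨p, hp, hp'⟩ := h
  have hsol : ∀ γ : K, ∃ h : K[X], γ ≠ 0 → ∀ n : ℕ,
      h.eval ((n : K) + 1) * γ ^ (n + 1) - a * (h.eval (n : K) * γ ^ n) =
      (p γ).eval (n : K) * γ ^ n := by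
    intro γ
    by_cases hγ : γ = 0
    · exact ⟨0, fun h => absurd hγ h⟩
    · obtain ⟨h, hh⟩ := poly_solve' γ a hγ (p γ)
      exact ⟨h, fun _ => hh⟩
  choose H hH using hsol
  set w : ℕ → K := fun n => ∑ γ ∈ p.support, (H γ).eval (n : K) * γ ^ n with hw
  have hwEP : EP R w := EP.finset_sum p.support _ (fun γ hγ =>
    EP.single γ (hp γ hγ).1 (hp γ hγ).2 (H γ))
  set d : ℕ → K := fun n => u n - w n with hd
  have hdrec : ∀ᶠ n : ℕ in atTop, d (n + 1) = a * d n := by
    filter_upwards [hp'] with n hn
    have h1 : w (n + 1) - a * w n = p.sum (fun γ q => q.eval (n : K) * γ ^ n) := by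
      rw [hw, Finsupp.sum]
      simp only
      rw [Finset.mul_sum, ← Finset.sum_sub_distrib]
      apply Finset.sum_congr rfl
      intro γ hγ
      rw [← hH γ (hp γ hγ).1 n]
      push_cast
      ring
    rw [hd]
    simp only
    rw [← h1] at hn
    linear_combination hn
  have hdEP : EP R d := by
    obtain ⟨N, hN⟩ := eventually_atTop.mp hdrec
    by_cases ha0 : a = 0
    · apply (EP.zero R).of_eventually_eq
      filter_upwards [eventually_ge_atTop (N + 1)] with n hn
      obtain ⟨k, rfl⟩ : ∃ k, n = k + 1 := ⟨n - 1, by lia⟩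
      rw [hN k (by lia), ha0, zero_mul]
    · have h1 : ∀ k, d (N + k) = a ^ k * d N := by
        intro k
        induction k with
        | zero => simp
        | succ k ih =>
          rw [← add_assoc, hN (N + k) (by lia), ih]
          ring
      apply (EP.single a ha0 ha (C (d N / a ^ N))).of_eventually_eq
      filter_upwards [eventually_ge_atTop N] with n hn
      obtain ⟨k, rfl⟩ := Nat.exists_eq_add_of_le hn
      rw [h1, eval_C, pow_add]
      field_simp
  apply (hwEP.add hdEP).of_eventually_eq
  refine Eventually.of_forall (fun n => ?_)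
  rw [hd]
  ring

/-- The shift operator. -/
def shiftOp (K : Type*) [Field K] : Module.End K (ℕ → K) where
  toFun u n := u (n + 1)
  map_add' u v := rfl
  map_smul' c u := rfl

omit [CharZero K] in
theorem shiftOp_pow (u : ℕ → K) (k n : ℕ) : ((shiftOp K) ^ k) u n = u (n + k) := by
  induction k generalizing n with
  | zero => rfl
  | succ k ih =>
    rw [pow_succ', Module.End.mul_apply]
    change ((shiftOp K) ^ k) u (n + 1) = _
    rw [ih]
    congr 1
    ring

theorem EP.of_multiset {R : K → Prop} (s : Multiset K) (hs : ∀ a ∈ s, R a) :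
    ∀ u : ℕ → K, (aeval (shiftOp K) (s.map (fun a => X - C a)).prod) u = 0 → EP R u := by
  induction s using Multiset.induction_on with
  | empty =>
    intro u hu
    simp only [Multiset.map_zero, Multiset.prod_zero, map_one, Module.End.one_apply] at hu
    rw [hu]
    exact EP.zero R
  | cons a s ih =>
    intro u hu
    apply EP.step a (hs a (Multiset.mem_cons_self a s))
    apply ih (fun b hb => hs b (Multiset.mem_cons_of_mem hb))
    rw [Multiset.map_cons, Multiset.prod_cons, mul_comm, map_mul, Module.End.mul_apply] at hu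
    have h1 : (aeval (shiftOp K) (X - C a)) u = fun n => u (n + 1) - a * u n := by
      rw [map_sub, aeval_X, aeval_C]
      rfl
    rw [h1] at hu
    exact hu

theorem EP.of_isSolution (E : LinearRecurrence ℤ) (x : ℕ → ℤ) (hx : E.IsSolution x)
    (hs : (E.charPoly.map (algebraMap ℤ K)).Splits) :
    EP (fun γ : K => IsIntegral ℤ γ ∧ aeval γ E.charPoly = 0) (fun n => (x n : K)) := by
  have hmon := E.charPoly_monic
  set P := E.charPoly.map (algebraMap ℤ K) with hP
  have hPm : P.Monic := hmon.map _
  have hprod : P = (P.roots.map (fun a => X - C a)).prod :=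
    hs.eq_prod_roots_of_monic hPm
  apply EP.of_multiset P.roots
  · intro a ha
    have h1 := (mem_roots'.mp ha).2
    rw [IsRoot.def, hP, eval_map] at h1
    exact ⟨⟨E.charPoly, hmon, h1⟩, h1⟩
  · rw [← hprod, hP]
    funext n
    have h1 : (aeval (shiftOp K) (E.charPoly.map (algebraMap ℤ K))) (fun n => (x n : K)) n =
        ∑ i ∈ Finset.range (E.order + 1), (E.charPoly.coeff i : K) * (x (n + i) : K) := by
      have hdeg : (E.charPoly.map (algebraMap ℤ K)).natDegree < E.order + 1 := by
        have h2 := natDegree_map_le (f := algebraMap ℤ K) (p := E.charPoly)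
        have h3 : E.charPoly.natDegree = E.order :=
          natDegree_eq_of_degree_eq_some E.charPoly_degree_eq_order
        lia
      rw [aeval_eq_sum_range' hdeg, LinearMap.sum_apply, Finset.sum_apply]
      apply Finset.sum_congr rfl
      intro i _
      rw [LinearMap.smul_apply, Pi.smul_apply, shiftOp_pow, coeff_map, smul_eq_mul]
      rfl
    rw [h1]
    change _ = (0 : K)
    have h4 : ∑ i ∈ Finset.range (E.order + 1), E.charPoly.coeff i * x (n + i) = 0 := by
      rw [Finset.sum_range_succ]
      have h5 : E.charPoly.coeff E.order = 1 := by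
        have h3 : E.charPoly.natDegree = E.order :=
          natDegree_eq_of_degree_eq_some E.charPoly_degree_eq_order
        have := hmon.coeff_natDegree
        rwa [h3] at this
      rw [h5, one_mul, hx n, Finset.sum_range, ← Finset.sum_add_distrib]
      apply Finset.sum_eq_zero
      intro i _
      have h6 : E.charPoly.coeff (i : ℕ) = - E.coeffs i := by
        rw [LinearRecurrence.charPoly, coeff_sub, coeff_monomial, if_neg (by have := i.2; lia),
          zero_sub, finsetSum_coeff]
        congr 1
        rw [Finset.sum_eq_single i]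
        · rw [coeff_monomial, if_pos rfl]
        · intro b _ hb
          rw [coeff_monomial, if_neg (fun h => hb (Fin.ext h))]
        · intro h
          exact absurd (Finset.mem_univ i) h
      rw [h6]
      ring
    have h7 := congrArg (fun z : ℤ => (z : K)) h4
    simpa using h7

end EP

end Helper17.LinRec
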