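import Mathlib
import Pool.Agent.Helper17.LinRec.Alg

set_option autoImplicit false

namespace Helper17.LinRec

open AddMonoidAlgebra Filter Topology

section Trig

theorem trig_zero {α : Type*} [DecidableEq α] (S : Finset α) (z : α → ℂ)
    (hz : ∀ a ∈ S, ‖z a‖ = 1) (hinj : Set.InjOn z S) :
    ∀ c : α → ℂ, Tendsto (fun n : ℕ => ∑ a ∈ S, c a * z a ^ n) atTop (𝓝 0) →
      ∀ a ∈ S, c a = 0 := by
  induction S using Finset.induction_on with
  | empty => intro c _ a ha; simp at ha
  | insert b S hb ih =>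
    intro c hc
    have hzb : ‖z b‖ = 1 := hz b (Finset.mem_insert_self b S)
    have hS : ∀ a ∈ S, c a = 0 := by
      have h1 : Tendsto (fun n : ℕ => ∑ a ∈ S, (c a * (z a - z b)) * z a ^ n) atTop (𝓝 0) := by
        have h2 : Tendsto (fun n : ℕ => (∑ a ∈ insert b S, c a * z a ^ (n + 1)) -
            z b * ∑ a ∈ insert b S, c a * z a ^ n) atTop (𝓝 (0 - z b * 0)) := by
          apply Tendsto.sub
          · exact hc.comp (tendsto_add_atTop_nat 1)
          · exact hc.const_mul _
        rw [mul_zero, sub_zero] at h2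
        refine h2.congr (fun n => ?_)
        rw [Finset.mul_sum, ← Finset.sum_sub_distrib, Finset.sum_insert hb]
        have h0 : c b * z b ^ (n + 1) - z b * (c b * z b ^ n) = 0 := by ring
        rw [h0, zero_add]
        apply Finset.sum_congr rfl
        intro a _
        ring
      have h3 := ih (fun a ha => hz a (Finset.mem_insert_of_mem ha))
        (hinj.mono (by intro a ha; exact Finset.mem_coe.mpr (Finset.mem_insert_of_mem ha))) _ h1
      intro a ha
      have h4 := h3 a ha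
      rcases mul_eq_zero.mp h4 with h5 | h5
      · exact h5
      · exfalso
        have : z a = z b := sub_eq_zero.mp h5
        have := hinj (Finset.mem_coe.mpr (Finset.mem_insert_of_mem ha))
          (Finset.mem_coe.mpr (Finset.mem_insert_self b S)) this
        rw [this] at ha
        exact hb ha
    intro a ha
    rw [Finset.mem_insert] at ha
    rcases ha with rfl | ha
    · have h1 : Tendsto (fun n : ℕ => c a * z a ^ n) atTop (𝓝 0) := by
        refine hc.congr (fun n => ?_)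
        rw [Finset.sum_insert hb, Finset.sum_eq_zero, add_zero]
        intro x hx
        rw [hS x hx, zero_mul]
      have h2 : Tendsto (fun n : ℕ => ‖c a * z a ^ n‖) atTop (𝓝 0) := by
        simpa using h1.norm
      have h3 : (fun n : ℕ => ‖c a * z a ^ n‖) = fun _ => ‖c a‖ := by
        ext n
        rw [norm_mul, norm_pow, hzb, one_pow, mul_one]
      rw [h3] at h2
      have h4 := tendsto_nhds_unique h2 tendsto_const_nhds
      exact norm_eq_zero.mp h4.symm
    · exact hS a ha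

end Trig

/-- The exponent monoid. -/
abbrev Mon (r : ℕ) : Type := (Fin r → ℤ) × ℕ

/-- The value group used to order exponents. -/
abbrev Val (r : ℕ) : Type := ℝ ×ₗ (ℕ ×ₗ Lex (Fin r → ℤ))

variable {K : Type*} [Field K] {r : ℕ}

/-- The monomial with exponent vector `a`. -/
def gam (g : Fin r → Kˣ) (a : Fin r → ℤ) : Kˣ := ∏ i, g i ^ a i

theorem gam_add (g : Fin r → Kˣ) (a b : Fin r → ℤ) : gam g (a + b) = gam g a * gam g b := by
  simp only [gam, Pi.add_apply, zpow_add, Finset.prod_mul_distrib]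

theorem gam_zero (g : Fin r → Kˣ) : gam g 0 = 1 := by simp [gam]

/-- Evaluation of monomials at the integer `n`. -/
def chi (g : Fin r → Kˣ) (n : ℕ) : Multiplicative (Mon r) →* K where
  toFun m := (n : K) ^ m.toAdd.2 * ((gam g m.toAdd.1 : Kˣ) : K) ^ n
  map_one' := by simp [gam_zero]
  map_mul' m m' := by
    simp only [toAdd_mul, Prod.snd_add, Prod.fst_add, gam_add, Units.val_mul]
    ring

/-- Evaluation of a formal exponential polynomial at the integer `n`. -/
noncomputable def ev (g : Fin r → Kˣ) (n : ℕ) : AddMonoidAlgebra K (Mon r) →+* K :=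
  (AddMonoidAlgebra.lift K K (Mon r) (chi g n) : AddMonoidAlgebra K (Mon r) →ₐ[K] K).toRingHom

theorem ev_eq_sum (g : Fin r → Kˣ) (n : ℕ) (u : AddMonoidAlgebra K (Mon r)) :
    ev g n u = ∑ m ∈ u.coeff.support, u.coeff m * ((n : K) ^ m.2 * ((gam g m.1 : Kˣ) : K) ^ n) := by
  change (AddMonoidAlgebra.lift K K (Mon r) (chi g n)) u = _
  rw [AddMonoidAlgebra.lift_apply]
  rfl

/-- The logarithmic growth exponent. -/
noncomputable def lam (τ : K →+* ℂ) (g : Fin r → Kˣ) : (Fin r → ℤ) →+ ℝ where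
  toFun a := Real.log ‖τ ((gam g a : Kˣ) : K)‖
  map_zero' := by simp [gam_zero]
  map_add' a b := by
    rw [gam_add, Units.val_mul, map_mul, norm_mul, Real.log_mul]
    · simp
    · simp

/-- The order map. -/
noncomputable def om (τ : K →+* ℂ) (g : Fin r → Kˣ) : Mon r →+ Val r where
  toFun m := toLex (lam τ g m.1, toLex (m.2, toLex m.1))
  map_zero' := by
    simp only [Prod.fst_zero, map_zero, Prod.snd_zero]
    rfl
  map_add' a b := by
    simp only [Prod.fst_add, map_add, Prod.snd_add]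
    rfl

theorem om_injective (τ : K →+* ℂ) (g : Fin r → Kˣ) : Function.Injective (om τ g) := by
  intro a b h
  have h1 : (toLex (lam τ g a.1, toLex (a.2, toLex a.1)) : Val r) =
    toLex (lam τ g b.1, toLex (b.2, toLex b.1)) := h
  have h2 := toLex_inj.mp h1
  rw [Prod.mk.injEq] at h2
  have h3 := toLex_inj.mp h2.2
  rw [Prod.mk.injEq] at h3
  exact Prod.ext (toLex_inj.mp h3.2) h3.1

/-- The logarithm of the size of a monomial at `n`. -/
noncomputable def wt (τ : K →+* ℂ) (g : Fin r → Kˣ) (m : Mon r) (n : ℕ) : ℝ :=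
  lam τ g m.1 * n + m.2 * Real.log n

theorem wt_add (τ : K →+* ℂ) (g : Fin r → Kˣ) (m m' : Mon r) (n : ℕ) :
    wt τ g (m + m') n = wt τ g m n + wt τ g m' n := by
  simp only [wt, Prod.fst_add, Prod.snd_add, map_add, Nat.cast_add]
  ring

theorem norm_chi (τ : K →+* ℂ) (g : Fin r → Kˣ) (m : Mon r) (n : ℕ) (hn : 1 ≤ n) :
    ‖τ ((n : K) ^ m.2 * ((gam g m.1 : Kˣ) : K) ^ n)‖ = Real.exp (wt τ g m n) := by
  have h0 : (0 : ℝ) < n := by exact_mod_cast hn
  have h1 : 0 < ‖τ ((gam g m.1 : Kˣ) : K)‖ := by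
    rw [norm_pos_iff]
    simp
  rw [map_mul, map_pow, map_pow, map_natCast, norm_mul, norm_pow, norm_pow, Complex.norm_natCast,
    wt, Real.exp_add, mul_comm (lam τ g m.1) (n : ℝ), Real.exp_nat_mul, Real.exp_nat_mul,
    Real.exp_log h0]
  change (n : ℝ) ^ m.2 * _ = Real.exp (Real.log _) ^ n * _
  rw [Real.exp_log h1]
  ring

theorem wt_le_of_om_le (τ : K →+* ℂ) (g : Fin r → Kˣ) {m m' : Mon r}
    (h : om τ g m ≤ om τ g m') :
    ∃ C : ℝ, ∀ n : ℕ, 1 ≤ n → wt τ g m n ≤ wt τ g m' n + C := by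
  have h' : (toLex (lam τ g m.1, toLex (m.2, toLex m.1)) : Val r) ≤
    toLex (lam τ g m'.1, toLex (m'.2, toLex m'.1)) := h
  rw [Prod.Lex.toLex_le_toLex] at h'
  rcases h' with h1 | ⟨h1, h2⟩
  · simp only at h1
    set δ := (lam τ g m'.1 - lam τ g m.1) / (m.2 + 1) with hδ
    have hδ0 : 0 < δ := by
      apply div_pos
      · linarith
      · positivity
    refine ⟨m.2 * (-1 - Real.log δ), fun n hn => ?_⟩
    have hn0 : (0 : ℝ) < n := by exact_mod_cast hn
    have hlog : Real.log n ≤ δ * n - 1 - Real.log δ := by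
      have h3 := Real.log_le_sub_one_of_pos (mul_pos hδ0 hn0)
      rw [Real.log_mul hδ0.ne' hn0.ne'] at h3
      linarith
    have hlog0 : 0 ≤ Real.log n := Real.log_natCast_nonneg n
    have h4 : (m.2 : ℝ) * Real.log n ≤ m.2 * (δ * n - 1 - Real.log δ) :=
      mul_le_mul_of_nonneg_left hlog (Nat.cast_nonneg _)
    have h5 : (m.2 : ℝ) * δ ≤ lam τ g m'.1 - lam τ g m.1 := by
      have : ((m.2 : ℝ) + 1) * δ = lam τ g m'.1 - lam τ g m.1 := by
        rw [hδ]
        field_simp
      nlinarith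
    have h6 : (m.2 : ℝ) * δ * n ≤ (lam τ g m'.1 - lam τ g m.1) * n :=
      mul_le_mul_of_nonneg_right h5 hn0.le
    have h7 : 0 ≤ (m'.2 : ℝ) * Real.log n := by positivity
    simp only [wt]
    nlinarith
  · simp only at h1 h2
    rw [Prod.Lex.toLex_le_toLex] at h2
    refine ⟨0, fun n hn => ?_⟩
    have hle : m.2 ≤ m'.2 := by
      rcases h2 with h3 | ⟨h3, _⟩
      · exact h3.le
      · exact h3.le
    have hle' : (m.2 : ℝ) ≤ m'.2 := by exact_mod_cast hle
    simp only [wt]
    rw [h1, add_zero]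
    have := mul_le_mul_of_nonneg_right hle' (Real.log_natCast_nonneg n)
    linarith

theorem upper (τ : K →+* ℂ) (g : Fin r → Kˣ) (u : AddMonoidAlgebra K (Mon r)) (m : Mon r)
    (hu : ∀ m', u.coeff m' ≠ 0 → om τ g m' ≤ om τ g m) :
    ∃ C : ℝ, 0 < C ∧ ∀ n : ℕ, 1 ≤ n → ‖τ (ev g n u)‖ ≤ C * Real.exp (wt τ g m n) := by
  classical
  have h1 : ∀ m' : Mon r, ∃ C : ℝ, u.coeff m' ≠ 0 → ∀ n : ℕ, 1 ≤ n →
      wt τ g m' n ≤ wt τ g m n + C := by
    intro m'
    by_cases h : u.coeff m' ≠ 0
    · obtain ⟨C, hC⟩ := wt_le_of_om_le τ g (hu m' h)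
      exact ⟨C, fun _ => hC⟩
    · exact ⟨0, fun h' => absurd h' h⟩
  choose C hC using h1
  refine ⟨1 + ∑ m' ∈ u.coeff.support, ‖τ (u.coeff m')‖ * Real.exp (C m'), ?_, ?_⟩
  · positivity
  · intro n hn
    rw [ev_eq_sum, map_sum]
    calc ‖∑ m' ∈ u.coeff.support,
          τ (u.coeff m' * ((n : K) ^ m'.2 * ((gam g m'.1 : Kˣ) : K) ^ n))‖
        ≤ ∑ m' ∈ u.coeff.support,
          ‖τ (u.coeff m' * ((n : K) ^ m'.2 * ((gam g m'.1 : Kˣ) : K) ^ n))‖ := norm_sum_le _ _
      _ ≤ ∑ m' ∈ u.coeff.support, ‖τ (u.coeff m')‖ * Real.exp (C m') *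
            Real.exp (wt τ g m n) := by
          apply Finset.sum_le_sum
          intro m' hm'
          rw [map_mul, norm_mul, norm_chi τ g m' n hn, mul_assoc]
          apply mul_le_mul_of_nonneg_left _ (norm_nonneg _)
          rw [← Real.exp_add]
          apply Real.exp_le_exp.mpr
          have := hC m' (Finsupp.mem_support_iff.mp hm') n hn
          linarith
      _ ≤ _ := by
          rw [← Finset.sum_mul]
          apply mul_le_mul_of_nonneg_right _ (Real.exp_pos _).le
          linarith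

theorem tendsto_wt_sub (τ : K →+* ℂ) (g : Fin r → Kˣ) {m m' : Mon r}
    (h : om τ g m' ≤ om τ g m) (hne : ¬ (lam τ g m'.1 = lam τ g m.1 ∧ m'.2 = m.2)) :
    Tendsto (fun n : ℕ => Real.exp (wt τ g m' n - wt τ g m n)) atTop (𝓝 0) := by
  have h' : (toLex (lam τ g m'.1, toLex (m'.2, toLex m'.1)) : Val r) ≤
    toLex (lam τ g m.1, toLex (m.2, toLex m.1)) := h
  rw [Prod.Lex.toLex_le_toLex] at h'
  apply Real.tendsto_exp_atBot.comp
  have hcast : Tendsto (fun n : ℕ => (n : ℝ)) atTop atTop := tendsto_natCast_atTop_atTop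
  rcases h' with h1 | ⟨h1, h2⟩
  · simp only at h1
    set δ := (lam τ g m.1 - lam τ g m'.1) / (2 * (m'.2 + 1)) with hδ
    have hδ0 : 0 < δ := by
      apply div_pos
      · linarith
      · positivity
    have hlim : Tendsto (fun n : ℕ => -((lam τ g m.1 - lam τ g m'.1) / 2) * (n : ℝ) +
        m'.2 * (-1 - Real.log δ)) atTop atBot := by
      apply tendsto_atBot_add_const_right
      exact hcast.const_mul_atTop_of_neg (by linarith)
    apply tendsto_atBot_mono' _ _ hlim
    filter_upwards [eventually_ge_atTop 1] with n hn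
    have hn0 : (0 : ℝ) < n := by exact_mod_cast hn
    have hlog : Real.log n ≤ δ * n - 1 - Real.log δ := by
      have h3 := Real.log_le_sub_one_of_pos (mul_pos hδ0 hn0)
      rw [Real.log_mul hδ0.ne' hn0.ne'] at h3
      linarith
    have hlog0 : 0 ≤ Real.log n := Real.log_natCast_nonneg n
    have h4 : (m'.2 : ℝ) * Real.log n ≤ m'.2 * (δ * n - 1 - Real.log δ) :=
      mul_le_mul_of_nonneg_left hlog (Nat.cast_nonneg _)
    have h5 : (m'.2 : ℝ) * δ ≤ (lam τ g m.1 - lam τ g m'.1) / 2 := by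
      have : ((m'.2 : ℝ) + 1) * δ = (lam τ g m.1 - lam τ g m'.1) / 2 := by
        rw [hδ]
        field_simp
      nlinarith
    have h6 : (m'.2 : ℝ) * δ * n ≤ (lam τ g m.1 - lam τ g m'.1) / 2 * n :=
      mul_le_mul_of_nonneg_right h5 hn0.le
    have h7 : 0 ≤ (m.2 : ℝ) * Real.log n := by positivity
    simp only [wt]
    nlinarith
  · simp only at h1 h2
    rw [Prod.Lex.toLex_le_toLex] at h2
    have hlt : m'.2 < m.2 := by
      rcases h2 with h3 | ⟨h3, _⟩
      · exact h3
      · exact absurd ⟨h1, h3⟩ hne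
    have hlt' : (m'.2 : ℝ) < m.2 := by exact_mod_cast hlt
    have heq : (fun n : ℕ => wt τ g m' n - wt τ g m n) =
        fun n : ℕ => ((m'.2 : ℝ) - m.2) * Real.log n := by
      ext n
      simp only [wt]
      rw [h1]
      ring
    rw [heq]
    exact (Real.tendsto_log_atTop.comp hcast).const_mul_atTop_of_neg (by linarith)

theorem lower (τ : K →+* ℂ) (g : Fin r → Kˣ) (hg : Function.Injective (gam g))
    (u : AddMonoidAlgebra K (Mon r)) (m : Mon r) (hu : IsLead (om τ g) u m) :
    ¬ Tendsto (fun n : ℕ => ‖τ (ev g n u)‖ / Real.exp (wt τ g m n)) atTop (𝓝 0) := by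
  classical
  intro hlim
  set T := u.coeff.support.filter (fun m' => lam τ g m'.1 = lam τ g m.1 ∧ m'.2 = m.2) with hT
  set z : Mon r → ℂ := fun m' => τ ((gam g m'.1 : Kˣ) : K) / (Real.exp (lam τ g m.1) : ℂ) with hz
  have hzn : ∀ m' ∈ T, ‖z m'‖ = 1 := by
    intro m' hm'
    have h1 := (Finset.mem_filter.mp hm').2.1
    have h2 : 0 < ‖τ ((gam g m'.1 : Kˣ) : K)‖ := by
      rw [norm_pos_iff]
      simp
    have h3 : Real.exp (lam τ g m'.1) = ‖τ ((gam g m'.1 : Kˣ) : K)‖ := by
      change Real.exp (Real.log _) = _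
      rw [Real.exp_log h2]
    rw [hz]
    simp only
    rw [norm_div, Complex.norm_real, Real.norm_eq_abs, abs_of_pos (Real.exp_pos _), ← h1, h3,
      div_self h2.ne']
  have hzinj : Set.InjOn z T := by
    intro a ha b hb hab
    have ha' := (Finset.mem_filter.mp (Finset.mem_coe.mp ha)).2
    have hb' := (Finset.mem_filter.mp (Finset.mem_coe.mp hb)).2
    have hne : (Real.exp (lam τ g m.1) : ℂ) ≠ 0 := by
      exact_mod_cast (Real.exp_pos _).ne'
    have h1 : τ ((gam g a.1 : Kˣ) : K) = τ ((gam g b.1 : Kˣ) : K) := by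
      have h0 : τ ((gam g a.1 : Kˣ) : K) / (Real.exp (lam τ g m.1) : ℂ) =
        τ ((gam g b.1 : Kˣ) : K) / (Real.exp (lam τ g m.1) : ℂ) := hab
      exact (div_left_inj' hne).mp h0
    have h2 : gam g a.1 = gam g b.1 := Units.ext (τ.injective h1)
    exact Prod.ext (hg h2) (ha'.2.trans hb'.2.symm)
  have hsum : Tendsto (fun n : ℕ => ∑ m' ∈ T, τ (u.coeff m') * z m' ^ n) atTop (𝓝 0) := by
    have hA : Tendsto (fun n : ℕ => τ (ev g n u) / (Real.exp (wt τ g m n) : ℂ)) atTop (𝓝 0) := by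
      rw [tendsto_zero_iff_norm_tendsto_zero]
      refine hlim.congr (fun n => ?_)
      rw [norm_div, Complex.norm_real, Real.norm_eq_abs, abs_of_pos (Real.exp_pos _)]
    have hB : Tendsto (fun n : ℕ => ∑ m' ∈ u.coeff.support.filter
        (fun m' => ¬ (lam τ g m'.1 = lam τ g m.1 ∧ m'.2 = m.2)),
        τ (u.coeff m' * ((n : K) ^ m'.2 * ((gam g m'.1 : Kˣ) : K) ^ n)) /
          (Real.exp (wt τ g m n) : ℂ)) atTop (𝓝 0) := by
      rw [← Finset.sum_const_zero (s := u.coeff.support.filter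
        (fun m' => ¬ (lam τ g m'.1 = lam τ g m.1 ∧ m'.2 = m.2)))]
      apply tendsto_finsetSum
      intro m' hm'
      rw [Finset.mem_filter] at hm'
      rw [tendsto_zero_iff_norm_tendsto_zero]
      have h1 := (tendsto_wt_sub τ g (hu.2 m' (Finsupp.mem_support_iff.mp hm'.1)) hm'.2).const_mul
        ‖τ (u.coeff m')‖
      rw [mul_zero] at h1
      apply h1.congr'
      filter_upwards [eventually_ge_atTop 1] with n hn
      rw [norm_div, map_mul, norm_mul, norm_chi τ g m' n hn, Complex.norm_real,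
        Real.norm_eq_abs, abs_of_pos (Real.exp_pos _), Real.exp_sub]
      ring
    have hC := hA.sub hB
    rw [sub_zero] at hC
    apply hC.congr'
    filter_upwards [eventually_ge_atTop 1] with n hn
    rw [ev_eq_sum, map_sum, Finset.sum_div, ← Finset.sum_filter_add_sum_filter_not
      u.coeff.support (fun m' => lam τ g m'.1 = lam τ g m.1 ∧ m'.2 = m.2), add_sub_cancel_right]
    apply Finset.sum_congr rfl
    intro m' hm'
    have h1 := (Finset.mem_filter.mp hm').2
    have hn0 : (0 : ℝ) < n := by exact_mod_cast hn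
    have hn1 : (n : ℂ) ≠ 0 := by
      exact_mod_cast hn0.ne'
    have hw : (Real.exp (wt τ g m n) : ℂ) = (n : ℂ) ^ m.2 * (Real.exp (lam τ g m.1) : ℂ) ^ n := by
      rw [wt, Real.exp_add, mul_comm (lam τ g m.1) (n : ℝ), Real.exp_nat_mul, Real.exp_nat_mul,
        Real.exp_log hn0]
      push_cast
      ring
    have hne : (Real.exp (lam τ g m.1) : ℂ) ≠ 0 := by
      exact_mod_cast (Real.exp_pos _).ne'
    rw [hw, map_mul, map_mul, map_pow, map_pow, map_natCast, hz]
    simp only
    rw [h1.2, div_pow]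
    field_simp
  have hmT : m ∈ T := by
    rw [hT, Finset.mem_filter]
    exact ⟨Finsupp.mem_support_iff.mpr hu.1, rfl, rfl⟩
  have h0 := trig_zero T z hzn hzinj (fun m' => τ (u.coeff m')) hsum m hmT
  simp only [map_eq_zero] at h0
  exact hu.1 h0

end Helper17.LinRec
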