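import Mathlib
import Pool.Agent.Helper17.LinRec.Growth

set_option autoImplicit false

namespace Helper17.LinRec

open AddMonoidAlgebra Filter Topology

variable {K : Type*} [Field K] [NumberField K] {r : ℕ}

theorem eq_zero_of_eventually (g : Fin r → Kˣ) (hg : Function.Injective (gam g))
    (u : AddMonoidAlgebra K (Mon r)) (h : ∀ᶠ n : ℕ in atTop, ev g n u = 0) : u = 0 := by
  by_contra hu
  obtain ⟨τ⟩ : Nonempty (K →+* ℂ) := inferInstance
  obtain ⟨m, hm⟩ := exists_isLead (om τ g) u hu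
  apply lower τ g hg u m hm
  apply tendsto_const_nhds.congr'
  filter_upwards [h] with n hn
  rw [hn]
  simp

theorem int_eventually_zero (a : ℕ → ℤ) (h : Tendsto (fun n => |(a n : ℝ)|) atTop (𝓝 0)) :
    ∀ᶠ n in atTop, a n = 0 := by
  have h1 : ∀ᶠ n in atTop, |(a n : ℝ)| < 1 := h.eventually (gt_mem_nhds one_pos)
  filter_upwards [h1] with n hn
  have h2 : |a n| < 1 := by exact_mod_cast hn
  exact Int.abs_lt_one_iff.mp h2

theorem alg_eventually_zero (w : ℕ → K) (hw : ∀ᶠ n in atTop, IsIntegral ℤ (w n))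
    (h : ∀ τ : K →+* ℂ, Tendsto (fun n => ‖τ (w n)‖) atTop (𝓝 0)) :
    ∀ᶠ n in atTop, w n = 0 := by
  have h1 : ∀ᶠ n in atTop, ∀ τ : K →+* ℂ, ‖τ (w n)‖ < 1 := by
    rw [Filter.eventually_all]
    intro τ
    exact (h τ).eventually (gt_mem_nhds one_pos)
  filter_upwards [hw, h1] with n hn hn1
  by_contra hne
  obtain ⟨α, hα⟩ : ∃ α : NumberField.RingOfIntegers K, (α : K) = w n := ⟨⟨w n, hn⟩, rfl⟩
  have hα0 : α ≠ 0 := by
    rintro rfl
    apply hne
    rw [← hα]
    simp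
  obtain ⟨σ, hσ⟩ := NumberField.exists_conjugate_one_le_norm hα0
  have h2 := hn1 σ
  rw [hα] at hσ
  exact absurd hσ (not_le.mpr h2)

theorem integral_multiple (u : AddMonoidAlgebra K (Mon r)) :
    ∃ N : ℤ, N ≠ 0 ∧ ∀ m, IsIntegral ℤ ((N : K) * u.coeff m) := by
  classical
  have h1 : ∀ z : K, ∃ y : ℤ, y ≠ 0 ∧ IsIntegral ℤ ((y : K) * z) := by
    intro z
    have hz : IsAlgebraic ℤ z := by
      have : IsAlgebraic ℚ z := Algebra.IsAlgebraic.isAlgebraic z
      exact (IsFractionRing.isAlgebraic_iff ℤ ℚ K).mpr this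
    obtain ⟨y, hy, hy'⟩ := hz.exists_integral_multiple
    refine ⟨y, hy, ?_⟩
    rwa [zsmul_eq_mul] at hy'
  choose f hf hf' using h1
  refine ⟨∏ m ∈ u.coeff.support, f (u.coeff m), Finset.prod_ne_zero_iff.mpr fun m _ => hf _, ?_⟩
  intro m
  by_cases hm : m ∈ u.coeff.support
  · rw [← Finset.mul_prod_erase _ _ hm]
    push_cast
    rw [mul_comm (f (u.coeff m) : K), mul_assoc]
    apply IsIntegral.mul _ (hf' _)
    apply IsIntegral.prod
    intro i _
    exact isIntegral_algebraMap (R := ℤ) (A := K)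
  · rw [Finsupp.notMem_support_iff.mp hm, mul_zero]
    exact isIntegral_zero

theorem integral_ev (g : Fin r → Kˣ) (u : AddMonoidAlgebra K (Mon r)) (N : ℤ)
    (hN : ∀ m, IsIntegral ℤ ((N : K) * u.coeff m))
    (hgi : ∀ m, u.coeff m ≠ 0 → IsIntegral ℤ ((gam g m.1 : Kˣ) : K)) (n : ℕ) :
    IsIntegral ℤ ((N : K) * ev g n u) := by
  rw [ev_eq_sum, Finset.mul_sum]
  apply IsIntegral.sum
  intro m hm
  rw [← mul_assoc]
  apply IsIntegral.mul (hN m)
  apply IsIntegral.mul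
  · apply IsIntegral.pow
    have := isIntegral_algebraMap (R := ℤ) (A := K) (x := (n : ℤ))
    simpa using this
  · exact (hgi m (Finsupp.mem_support_iff.mp hm)).pow n

theorem integral_ev_der (g : Fin r → Kˣ) (φ : Mon r →+ K) (hφ : ∀ m, IsIntegral ℤ (φ m))
    (u : AddMonoidAlgebra K (Mon r)) (N : ℤ)
    (hN : ∀ m, IsIntegral ℤ ((N : K) * u.coeff m))
    (hgi : ∀ m, u.coeff m ≠ 0 → IsIntegral ℤ ((gam g m.1 : Kˣ) : K)) (n : ℕ) :
    IsIntegral ℤ ((N : K) * ev g n (der φ u)) := by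
  apply integral_ev
  · intro m
    rw [coeff_der, mul_left_comm]
    exact (hφ m).mul (hN m)
  · intro m hm
    apply hgi
    intro h
    rw [coeff_der, h, mul_zero] at hm
    exact hm rfl

end Helper17.LinRec
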