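import Mathlib
import Pool.Agent.Helper17.LinRec.Growth

set_option autoImplicit false

namespace Helper17.LinRec

open Filter Topology

/-- Elements of a finite set of naturals that have no later element within distance `H`. -/
theorem isolated_card (A : Finset ℕ) (N H : ℕ) (hH : 0 < H) (hA : ∀ n ∈ A, n < N) :
    (A.filter (fun n => ∀ h ∈ Finset.Icc 1 H, n + h ∉ A)).card ≤ N / H + 1 := by
  classical
  have h1 : (A.filter (fun n => ∀ h ∈ Finset.Icc 1 H, n + h ∉ A)).card ≤
      (Finset.range (N / H + 1)).card := by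
    apply Finset.card_le_card_of_injOn (fun n => n / H)
    · intro n hn
      have hn' := (Finset.mem_filter.mp (Finset.mem_coe.mp hn)).1
      rw [Finset.mem_coe, Finset.mem_range]
      exact Nat.lt_succ_of_le (Nat.div_le_div_right (hA n hn').le)
    · have key : ∀ n ∈ A.filter (fun n => ∀ h ∈ Finset.Icc 1 H, n + h ∉ A),
          ∀ m ∈ A.filter (fun n => ∀ h ∈ Finset.Icc 1 H, n + h ∉ A), n < m → n / H < m / H := by
        intro n hn m hm hlt
        have hn' := (Finset.mem_filter.mp hn).2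
        have hm' := (Finset.mem_filter.mp hm).1
        have h2 : H < m - n := by
          by_contra hcon
          rw [not_lt] at hcon
          apply hn' (m - n) (Finset.mem_Icc.mpr ⟨by lia, hcon⟩)
          rwa [Nat.add_sub_cancel' hlt.le]
        have h3 : n + H ≤ m := by lia
        calc n / H < n / H + 1 := Nat.lt_succ_self _
          _ = (n + H) / H := (Nat.add_div_right n hH).symm
          _ ≤ m / H := Nat.div_le_div_right h3
      intro n hn m hm hnm
      simp only at hnm
      rcases lt_trichotomy n m with h | h | h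
      · have := key n (Finset.mem_coe.mp hn) m (Finset.mem_coe.mp hm) h
        lia
      · exact h
      · have := key m (Finset.mem_coe.mp hm) n (Finset.mem_coe.mp hn) h
        lia
  rwa [Finset.card_range] at h1

/-- A set of natural numbers has upper density at most `δ`, in the form needed here. -/
def Sparse (P : ℕ → Prop) (δ : ℝ) : Prop :=
  ∀ᶠ N : ℕ in atTop, ∀ A : Finset ℕ, (∀ n ∈ A, n < N ∧ P n) → (A.card : ℝ) ≤ δ * N

theorem trig_sparse {α : Type*} [DecidableEq α] (S : Finset α) (z : α → ℂ)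
    (hz : ∀ a ∈ S, ‖z a‖ = 1)
    (hnd : ∀ a ∈ S, ∀ b ∈ S, ∀ h : ℕ, 0 < h → z a ^ h = z b ^ h → a = b) :
    ∀ c : α → ℂ, S.Nonempty → (∀ a ∈ S, c a ≠ 0) → ∀ δ : ℝ, 0 < δ → ∃ η : ℝ, 0 < η ∧
      Sparse (fun n => ‖∑ a ∈ S, c a * z a ^ n‖ ≤ η) δ := by
  induction S using Finset.induction_on with
  | empty => intro c hS; exact absurd hS (by simp)
  | insert b S hb ih =>
    intro c _ hc δ hδ
    by_cases hS : S.Nonempty
    · -- choose H
      obtain ⟨H, hH⟩ := exists_nat_gt (4 / δ)
      have hH0 : 0 < H := by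
        have : (0 : ℝ) < H := lt_trans (by positivity) hH
        exact_mod_cast this
      have hHr : (0 : ℝ) < H := by exact_mod_cast hH0
      have hIH : ∀ h : ℕ, ∃ η : ℝ, 0 < η ∧ (0 < h →
          Sparse (fun n => ‖∑ a ∈ S, (c a * (z a ^ h - z b ^ h)) * z a ^ n‖ ≤ η)
            (δ / (4 * H))) := by
        intro h
        by_cases hh : 0 < h
        · obtain ⟨η, hη, hη'⟩ := ih (fun a ha => hz a (Finset.mem_insert_of_mem ha))
            (fun a ha a' ha' => hnd a (Finset.mem_insert_of_mem ha) a'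
              (Finset.mem_insert_of_mem ha'))
            (fun a => c a * (z a ^ h - z b ^ h)) hS (by
              intro a ha
              apply mul_ne_zero (hc a (Finset.mem_insert_of_mem ha))
              intro h0
              have := hnd a (Finset.mem_insert_of_mem ha) b (Finset.mem_insert_self b S) h hh
                (sub_eq_zero.mp h0)
              rw [this] at ha
              exact hb ha) (δ / (4 * H)) (by positivity)
          exact ⟨η, hη, fun _ => hη'⟩
        · exact ⟨1, one_pos, fun h' => absurd h' hh⟩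
      choose η hη hη' using hIH
      obtain ⟨η0, hη0, hη0'⟩ : ∃ η0 : ℝ, 0 < η0 ∧ ∀ h ∈ Finset.Icc 1 H, 2 * η0 ≤ η h := by
        obtain ⟨h1, hh1, hmin⟩ := Finset.exists_min_image (Finset.Icc 1 H) η
          ⟨1, Finset.mem_Icc.mpr ⟨le_refl _, hH0⟩⟩
        refine ⟨η h1 / 2, half_pos (hη h1), fun h hh => ?_⟩
        have := hmin h hh
        linarith
      refine ⟨η0, hη0, ?_⟩
      have hall : ∀ᶠ N : ℕ in atTop, ∀ h ∈ Finset.Icc 1 H, ∀ A : Finset ℕ,
          (∀ n ∈ A, n < N ∧ ‖∑ a ∈ S, (c a * (z a ^ h - z b ^ h)) * z a ^ n‖ ≤ η h) →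
          (A.card : ℝ) ≤ δ / (4 * H) * N := by
        rw [Filter.eventually_all_finset]
        intro h hh
        exact hη' h (Finset.mem_Icc.mp hh).1
      obtain ⟨N0, hN0⟩ := exists_nat_gt (4 / δ)
      filter_upwards [hall, eventually_ge_atTop N0] with N hN hN1 A hA
      have hNr : 4 / δ < N := lt_of_lt_of_le hN0 (by exact_mod_cast hN1)
      have hN4 : 4 < δ * N := by
        rw [div_lt_iff₀ hδ] at hNr
        linarith
      set I := A.filter (fun n => ∀ h ∈ Finset.Icc 1 H, n + h ∉ A) with hI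
      set B : ℕ → Finset ℕ := fun h => A.filter (fun n => n + h ∈ A) with hB
      have hcover : A ⊆ I ∪ (Finset.Icc 1 H).biUnion B := by
        intro n hn
        rw [Finset.mem_union]
        by_cases h1 : ∀ h ∈ Finset.Icc 1 H, n + h ∉ A
        · left
          exact Finset.mem_filter.mpr ⟨hn, h1⟩
        · right
          push Not at h1
          obtain ⟨h, hh, h2⟩ := h1
          exact Finset.mem_biUnion.mpr ⟨h, hh, Finset.mem_filter.mpr ⟨hn, h2⟩⟩
      have hIcard : (I.card : ℝ) ≤ N / H + 1 := by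
        have h1 := isolated_card A N H hH0 (fun n hn => (hA n hn).1)
        have h2 : (I.card : ℝ) ≤ ((N / H + 1 : ℕ) : ℝ) := by exact_mod_cast h1
        refine h2.trans ?_
        push_cast
        have := @Nat.cast_div_le ℝ _ _ _ N H
        linarith
      have hBcard : ∀ h ∈ Finset.Icc 1 H, ((B h).card : ℝ) ≤ δ / (4 * H) * N := by
        intro h hh
        apply hN h hh (B h)
        intro n hn
        rw [hB, Finset.mem_filter] at hn
        refine ⟨(hA n hn.1).1, ?_⟩
        have h1 := (hA n hn.1).2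
        have h2 := (hA (n + h) hn.2).2
        have h3 : ∑ a ∈ S, (c a * (z a ^ h - z b ^ h)) * z a ^ n =
            (∑ a ∈ insert b S, c a * z a ^ (n + h)) -
            z b ^ h * ∑ a ∈ insert b S, c a * z a ^ n := by
          rw [Finset.mul_sum, ← Finset.sum_sub_distrib, Finset.sum_insert hb]
          have h0 : c b * z b ^ (n + h) - z b ^ h * (c b * z b ^ n) = 0 := by ring
          rw [h0, zero_add]
          apply Finset.sum_congr rfl
          intro a _
          ring
        rw [h3]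
        have h4 : ‖z b ^ h * ∑ a ∈ insert b S, c a * z a ^ n‖ ≤ η0 := by
          rw [norm_mul, norm_pow, hz b (Finset.mem_insert_self b S), one_pow, one_mul]
          exact h1
        have h5 := norm_sub_le (∑ a ∈ insert b S, c a * z a ^ (n + h))
          (z b ^ h * ∑ a ∈ insert b S, c a * z a ^ n)
        have h6 := hη0' h hh
        linarith
      have hcard : (A.card : ℝ) ≤ I.card + ∑ h ∈ Finset.Icc 1 H, ((B h).card : ℝ) := by
        have h1 := Finset.card_le_card hcover
        have h2 := Finset.card_union_le I ((Finset.Icc 1 H).biUnion B)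
        have h3 := Finset.card_biUnion_le (s := Finset.Icc 1 H) (t := B)
        have h4 : A.card ≤ I.card + ∑ h ∈ Finset.Icc 1 H, (B h).card := by lia
        exact_mod_cast h4
      have hsum : ∑ h ∈ Finset.Icc 1 H, ((B h).card : ℝ) ≤ δ / 4 * N := by
        calc ∑ h ∈ Finset.Icc 1 H, ((B h).card : ℝ)
            ≤ ∑ _h ∈ Finset.Icc 1 H, δ / (4 * H) * N := Finset.sum_le_sum hBcard
          _ = δ / 4 * N := by
              rw [Finset.sum_const, Nat.card_Icc, nsmul_eq_mul]
              rw [Nat.add_sub_cancel]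
              field_simp
      have hNH : (N : ℝ) / H ≤ δ / 4 * N := by
        rw [div_le_iff₀ hHr]
        have h1 : 4 < δ * H := by
          rw [div_lt_iff₀ hδ] at hH
          linarith
        have h2 : (0 : ℝ) ≤ N := Nat.cast_nonneg N
        nlinarith
      linarith
    · rw [Finset.not_nonempty_iff_eq_empty] at hS
      subst hS
      have hcb : 0 < ‖c b‖ := norm_pos_iff.mpr (hc b (Finset.mem_insert_self b _))
      refine ⟨‖c b‖ / 2, half_pos hcb, ?_⟩
      refine Eventually.of_forall (fun N A hA => ?_)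
      have hAe : A = ∅ := by
        rw [Finset.eq_empty_iff_forall_notMem]
        intro n hn
        have h1 : ‖∑ a ∈ insert b (∅ : Finset α), c a * z a ^ n‖ ≤ ‖c b‖ / 2 := (hA n hn).2
        rw [Finset.sum_insert hb, Finset.sum_empty, add_zero, norm_mul, norm_pow,
          hz b (Finset.mem_insert_self b _), one_pow, mul_one] at h1
        linarith
      rw [hAe, Finset.card_empty, Nat.cast_zero]
      positivity

variable {K : Type*} [Field K] {r : ℕ}

theorem gam_nsmul (g : Fin r → Kˣ) (h : ℕ) (a : Fin r → ℤ) : gam g (h • a) = gam g a ^ h := by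
  induction h with
  | zero => simp [gam_zero]
  | succ h ih => rw [succ_nsmul, gam_add, ih, pow_succ]

theorem asymp (τ : K →+* ℂ) (g : Fin r → Kˣ) (hg : Function.Injective (gam g))
    (u : AddMonoidAlgebra K (Mon r)) (m : Mon r) (hu : IsLead (om τ g) u m) :
    ∃ (T : Finset (Mon r)) (z : Mon r → ℂ), m ∈ T ∧ (∀ m' ∈ T, u.coeff m' ≠ 0) ∧
      (∀ m' ∈ T, lam τ g m'.1 = lam τ g m.1 ∧ m'.2 = m.2) ∧
      (∀ m' ∈ T, z m' = τ ((gam g m'.1 : Kˣ) : K) / (Real.exp (lam τ g m'.1) : ℂ)) ∧
      (∀ m' ∈ T, ‖z m'‖ = 1) ∧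
      (∀ a ∈ T, ∀ b ∈ T, ∀ h : ℕ, 0 < h → z a ^ h = z b ^ h → a = b) ∧
      Tendsto (fun n : ℕ => τ (ev g n u) / (Real.exp (wt τ g m n) : ℂ) -
        ∑ m' ∈ T, τ (u.coeff m') * z m' ^ n) atTop (𝓝 0) := by
  classical
  set T := u.coeff.support.filter (fun m' => lam τ g m'.1 = lam τ g m.1 ∧ m'.2 = m.2) with hT
  set z : Mon r → ℂ := fun m' => τ ((gam g m'.1 : Kˣ) : K) / (Real.exp (lam τ g m.1) : ℂ) with hz
  have hne : (Real.exp (lam τ g m.1) : ℂ) ≠ 0 := by
    exact_mod_cast (Real.exp_pos _).ne'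
  refine ⟨T, z, ?_, ?_, ?_, ?_, ?_, ?_, ?_⟩
  · rw [hT, Finset.mem_filter]
    exact ⟨Finsupp.mem_support_iff.mpr hu.1, rfl, rfl⟩
  · intro m' hm'
    exact Finsupp.mem_support_iff.mp (Finset.mem_filter.mp hm').1
  · intro m' hm'
    exact (Finset.mem_filter.mp hm').2
  · intro m' hm'
    rw [(Finset.mem_filter.mp hm').2.1]
  · intro m' hm'
    have h1 := (Finset.mem_filter.mp hm').2.1
    have h2 : 0 < ‖τ ((gam g m'.1 : Kˣ) : K)‖ := by
      rw [norm_pos_iff]
      simp
    have h3 : Real.exp (lam τ g m'.1) = ‖τ ((gam g m'.1 : Kˣ) : K)‖ := by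
      change Real.exp (Real.log _) = _
      rw [Real.exp_log h2]
    rw [hz]
    simp only
    rw [norm_div, Complex.norm_real, Real.norm_eq_abs, abs_of_pos (Real.exp_pos _), ← h1, h3,
      div_self h2.ne']
  · intro a ha b hb h hh hab
    have ha' := (Finset.mem_filter.mp ha).2
    have hb' := (Finset.mem_filter.mp hb).2
    have h0 : (τ ((gam g a.1 : Kˣ) : K) / (Real.exp (lam τ g m.1) : ℂ)) ^ h =
        (τ ((gam g b.1 : Kˣ) : K) / (Real.exp (lam τ g m.1) : ℂ)) ^ h := hab
    rw [div_pow, div_pow, div_left_inj' (pow_ne_zero _ hne), ← map_pow, ← map_pow] at h0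
    have h1 := τ.injective h0
    rw [← Units.val_pow_eq_pow_val, ← Units.val_pow_eq_pow_val] at h1
    have h2 := Units.ext h1
    rw [← gam_nsmul, ← gam_nsmul] at h2
    have h3 := hg h2
    have h4 : a.1 = b.1 := by
      funext i
      have h5 := congrFun h3 i
      simp only [Pi.smul_apply, nsmul_eq_mul] at h5
      have h6 : (h : ℤ) ≠ 0 := by exact_mod_cast hh.ne'
      exact mul_left_cancel₀ h6 h5
    exact Prod.ext h4 (ha'.2.trans hb'.2.symm)
  · have hB : Tendsto (fun n : ℕ => ∑ m' ∈ u.coeff.support.filter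
        (fun m' => ¬ (lam τ g m'.1 = lam τ g m.1 ∧ m'.2 = m.2)),
        τ (u.coeff m' * ((n : K) ^ m'.2 * ((gam g m'.1 : Kˣ) : K) ^ n)) /
          (Real.exp (wt τ g m n) : ℂ)) atTop (𝓝 0) := by
      rw [← Finset.sum_const_zero (s := u.coeff.support.filter
        (fun m' => ¬ (lam τ g m'.1 = lam τ g m.1 ∧ m'.2 = m.2)))]
      apply tendsto_finsetSum
      intro m' hm'
      rw [Finset.mem_filter] at hm'
      rw [tendsto_zero_iff_norm_tendsto_zero]
      have h1 := (tendsto_wt_sub τ g (hu.2 m' (Finsupp.mem_support_iff.mp hm'.1)) hm'.2).const_mul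
        ‖τ (u.coeff m')‖
      rw [mul_zero] at h1
      apply h1.congr'
      filter_upwards [eventually_ge_atTop 1] with n hn
      rw [norm_div, map_mul, norm_mul, norm_chi τ g m' n hn, Complex.norm_real,
        Real.norm_eq_abs, abs_of_pos (Real.exp_pos _), Real.exp_sub]
      ring
    apply hB.congr'
    filter_upwards [eventually_ge_atTop 1] with n hn
    rw [ev_eq_sum, map_sum, Finset.sum_div, ← Finset.sum_filter_add_sum_filter_not
      u.coeff.support (fun m' => lam τ g m'.1 = lam τ g m.1 ∧ m'.2 = m.2), add_comm, eq_comm,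
      add_sub_assoc, add_eq_left, sub_eq_zero]
    apply Finset.sum_congr rfl
    intro m' hm'
    have h1 := (Finset.mem_filter.mp hm').2
    have hn0 : (0 : ℝ) < n := by exact_mod_cast hn
    have hn1 : (n : ℂ) ≠ 0 := by
      exact_mod_cast hn0.ne'
    have hw : (Real.exp (wt τ g m n) : ℂ) = (n : ℂ) ^ m.2 * (Real.exp (lam τ g m.1) : ℂ) ^ n := by
      rw [wt, Real.exp_add, mul_comm (lam τ g m.1) (n : ℝ), Real.exp_nat_mul, Real.exp_nat_mul,
        Real.exp_log hn0]
      push_cast
      ring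
    rw [hw, map_mul, map_mul, map_pow, map_pow, map_natCast, hz]
    simp only
    rw [h1.2, div_pow]
    field_simp

theorem lower_sparse (τ : K →+* ℂ) (g : Fin r → Kˣ) (hg : Function.Injective (gam g))
    (u : AddMonoidAlgebra K (Mon r)) (m : Mon r) (hu : IsLead (om τ g) u m) (δ : ℝ) (hδ : 0 < δ) :
    ∃ c : ℝ, 0 < c ∧ Sparse (fun n => ‖τ (ev g n u)‖ ≤ c * Real.exp (wt τ g m n)) δ := by
  classical
  obtain ⟨T, z, hmT, hT0, _, _, hz, hnd, hlim⟩ := asymp τ g hg u m hu
  obtain ⟨η, hη, hs⟩ := trig_sparse T z hz hnd (fun m' => τ (u.coeff m')) ⟨m, hmT⟩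
    (fun a ha => by simpa using hT0 a ha) (δ / 2) (by positivity)
  refine ⟨η / 2, by positivity, ?_⟩
  have h1 : ∀ᶠ n : ℕ in atTop, ‖τ (ev g n u) / (Real.exp (wt τ g m n) : ℂ) -
        ∑ m' ∈ T, τ (u.coeff m') * z m' ^ n‖ < η / 2 := by
    have := (tendsto_zero_iff_norm_tendsto_zero.mp hlim).eventually (gt_mem_nhds (half_pos hη))
    exact this
  obtain ⟨N0, hN0⟩ := eventually_atTop.mp h1
  obtain ⟨N1, hN1⟩ := exists_nat_gt (N0 / (δ / 2))
  filter_upwards [hs, eventually_ge_atTop N1] with N hN hN' A hA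
  have hsplit : A ⊆ Finset.range N0 ∪ A.filter (fun n => N0 ≤ n) := by
    intro n hn
    rw [Finset.mem_union, Finset.mem_range, Finset.mem_filter]
    rcases lt_or_ge n N0 with h | h
    · exact Or.inl h
    · exact Or.inr ⟨hn, h⟩
  have h2 := hN (A.filter (fun n => N0 ≤ n)) (by
    intro n hn
    rw [Finset.mem_filter] at hn
    refine ⟨(hA n hn.1).1, ?_⟩
    have h3 := hN0 n hn.2
    have h4 : ‖τ (ev g n u) / (Real.exp (wt τ g m n) : ℂ)‖ ≤ η / 2 := by
      rw [norm_div, Complex.norm_real, Real.norm_eq_abs, abs_of_pos (Real.exp_pos _),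
        div_le_iff₀ (Real.exp_pos _)]
      exact (hA n hn.1).2
    have h5 := norm_sub_norm_le (∑ m' ∈ T, τ (u.coeff m') * z m' ^ n)
      (τ (ev g n u) / (Real.exp (wt τ g m n) : ℂ))
    rw [norm_sub_rev] at h5
    linarith)
  have h3 := (Finset.card_le_card hsplit).trans (Finset.card_union_le _ _)
  rw [Finset.card_range] at h3
  have h4 : (A.card : ℝ) ≤ N0 + (A.filter (fun n => N0 ≤ n)).card := by exact_mod_cast h3
  have h5 : (N0 : ℝ) / (δ / 2) < N := lt_of_lt_of_le hN1 (by exact_mod_cast hN')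
  rw [div_lt_iff₀ (by positivity)] at h5
  linarith

theorem lower_real (τ : K →+* ℂ) (g : Fin r → Kˣ) (hg : Function.Injective (gam g))
    (u : AddMonoidAlgebra K (Mon r)) (m : Mon r) (hu : IsLead (om τ g) u m)
    (hpos : ∀ a : Fin r → ℤ, ∃ t : ℝ, 0 < t ∧ τ ((gam g a : Kˣ) : K) = t) :
    ∃ c : ℝ, 0 < c ∧ ∀ᶠ n : ℕ in atTop, c * Real.exp (wt τ g m n) ≤ ‖τ (ev g n u)‖ := by
  classical
  obtain ⟨T, z, hmT, hT0, _, hzd, hz, hnd, hlim⟩ := asymp τ g hg u m hu
  have hz1 : ∀ a ∈ T, z a = 1 := by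
    intro a ha
    obtain ⟨t, ht, hta⟩ := hpos a.1
    rw [hzd a ha]
    have h1 : lam τ g a.1 = Real.log t := by
      change Real.log ‖τ ((gam g a.1 : Kˣ) : K)‖ = _
      rw [hta, Complex.norm_real, Real.norm_eq_abs, abs_of_pos ht]
    rw [h1, Real.exp_log ht, hta]
    exact div_self (by exact_mod_cast ht.ne')
  have hTm : T = {m} := by
    apply Finset.eq_singleton_iff_unique_mem.mpr
    refine ⟨hmT, fun a ha => ?_⟩
    apply hnd a ha m hmT 1 one_pos
    rw [hz1 a ha, hz1 m hmT]
  have h0 : 0 < ‖τ (u.coeff m)‖ := by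
    rw [norm_pos_iff]
    simpa using hu.1
  refine ⟨‖τ (u.coeff m)‖ / 2, half_pos h0, ?_⟩
  have h1 : ∀ᶠ n : ℕ in atTop, ‖τ (ev g n u) / (Real.exp (wt τ g m n) : ℂ) -
        ∑ m' ∈ T, τ (u.coeff m') * z m' ^ n‖ < ‖τ (u.coeff m)‖ / 2 := by
    have := (tendsto_zero_iff_norm_tendsto_zero.mp hlim).eventually (gt_mem_nhds (half_pos h0))
    exact this
  filter_upwards [h1] with n hn
  rw [hTm, Finset.sum_singleton, hz1 m hmT, one_pow, mul_one] at hn
  have h2 := norm_sub_norm_le (τ (u.coeff m)) (τ (ev g n u) / (Real.exp (wt τ g m n) : ℂ))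
  rw [norm_sub_rev] at h2
  have h3 : ‖τ (u.coeff m)‖ / 2 ≤ ‖τ (ev g n u) / (Real.exp (wt τ g m n) : ℂ)‖ := by linarith
  rwa [norm_div, Complex.norm_real, Real.norm_eq_abs, abs_of_pos (Real.exp_pos _),
    le_div_iff₀ (Real.exp_pos _)] at h3

end Helper17.LinRec
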