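import Mathlib
import Pool.Agent.Helper17.LinRec.Growth

set_option autoImplicit false

namespace Helper17.LinRec

open Filter Topology

theorem exists_torsion_exp (K : Type*) [Field K] [NumberField K] :
    ∃ q : ℕ, 0 < q ∧ ∀ z : Kˣ, IsOfFinOrder z → z ^ q = 1 := by
  refine ⟨NumberField.Units.torsionOrder K, NumberField.Units.torsionOrder_pos K, ?_⟩
  intro z hz
  obtain ⟨n, hn, hzn⟩ := isOfFinOrder_iff_pow_eq_one.mp hz
  have h1 : IsIntegral ℤ (z : K) := by
    apply IsIntegral.of_pow hn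
    have : ((z : K)) ^ n = 1 := by
      rw [← Units.val_pow_eq_pow_val, hzn, Units.val_one]
    rw [this]
    exact isIntegral_one
  have h2 : IsIntegral ℤ ((z⁻¹ : Kˣ) : K) := by
    apply IsIntegral.of_pow hn
    have : (((z⁻¹ : Kˣ) : K)) ^ n = 1 := by
      rw [← Units.val_pow_eq_pow_val, inv_pow, hzn, inv_one, Units.val_one]
    rw [this]
    exact isIntegral_one
  obtain ⟨a, ha⟩ : ∃ a : NumberField.RingOfIntegers K, (a : K) = z := ⟨⟨z, h1⟩, rfl⟩
  obtain ⟨b, hb⟩ : ∃ b : NumberField.RingOfIntegers K, (b : K) = (z⁻¹ : Kˣ) := ⟨⟨_, h2⟩, rfl⟩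
  have hinj : Function.Injective (fun a : NumberField.RingOfIntegers K => (a : K)) :=
    NumberField.RingOfIntegers.coe_injective
  have hab : a * b = 1 := by
    apply hinj
    simp only [map_mul, ha, hb, map_one]
    rw [← Units.val_mul, mul_inv_cancel, Units.val_one]
  have hba : b * a = 1 := by rw [mul_comm, hab]
  set u : (NumberField.RingOfIntegers K)ˣ := ⟨a, b, hab, hba⟩ with hu
  have hun : u ^ n = 1 := by
    apply Units.ext
    apply hinj
    simp only [Units.val_pow_eq_pow_val, map_pow, Units.val_one, map_one]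
    change (a : K) ^ n = 1
    rw [ha, ← Units.val_pow_eq_pow_val, hzn, Units.val_one]
  have hut : u ∈ NumberField.Units.torsion K := by
    rw [NumberField.Units.torsion, CommGroup.mem_torsion]
    exact isOfFinOrder_iff_pow_eq_one.mpr ⟨n, hn, hun⟩
  have h3 : (⟨u, hut⟩ : NumberField.Units.torsion K) ^ (NumberField.Units.torsionOrder K) = 1 :=
    pow_card_eq_one'
  have h4 : u ^ (NumberField.Units.torsionOrder K) = 1 := congrArg Subtype.val h3
  apply Units.ext
  rw [Units.val_pow_eq_pow_val, Units.val_one, ← ha]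
  have h5 := congrArg (fun v : (NumberField.RingOfIntegers K)ˣ =>
    ((v : NumberField.RingOfIntegers K) : K)) h4
  simp only [Units.val_pow_eq_pow_val, map_pow, Units.val_one, map_one] at h5
  exact h5

theorem exists_gens {K : Type*} [Field K] (q : ℕ)
    (hqt : ∀ z : Kˣ, IsOfFinOrder z → z ^ q = 1) (S : Finset Kˣ) :
    ∃ (r : ℕ) (g : Fin r → Kˣ), Function.Injective (gam g) ∧
      (∀ a, gam g a ∈ Subgroup.closure {z : Kˣ | ∃ s ∈ S, z = s ^ q}) ∧
      ∀ s ∈ S, ∃ a, gam g a = s ^ q := by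
  classical
  set G : Subgroup Kˣ := Subgroup.closure ((S.image (fun s => s ^ q) : Finset Kˣ) : Set Kˣ) with hG
  have hle : G ≤ (powMonoidHom q : Kˣ →* Kˣ).range := by
    rw [hG, Subgroup.closure_le]
    intro z hz
    rw [Finset.mem_coe, Finset.mem_image] at hz
    obtain ⟨s, _, rfl⟩ := hz
    exact ⟨s, rfl⟩
  have htf : IsMulTorsionFree G := by
    rw [isMulTorsionFree_iff_not_isOfFinOrder]
    intro z hz hfin
    apply hz
    obtain ⟨k, hk⟩ := hle z.2
    have hk' : k ^ q = (z : Kˣ) := hk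
    obtain ⟨n, hn, hzn⟩ := isOfFinOrder_iff_pow_eq_one.mp hfin
    have hzn' : (z : Kˣ) ^ n = 1 := congrArg Subtype.val hzn
    apply Subtype.ext
    change (z : Kˣ) = 1
    rw [← hk']
    by_cases hq0 : q = 0
    · rw [hq0, pow_zero]
    · apply hqt
      rw [isOfFinOrder_iff_pow_eq_one]
      refine ⟨q * n, Nat.mul_pos (Nat.pos_of_ne_zero hq0) hn, ?_⟩
      rw [pow_mul, hk', hzn']
  have hfg : Group.FG G := by
    rw [Group.fg_iff_subgroup_fg]
    exact ⟨_, rfl⟩
  have hfin : Module.Finite ℤ (Additive G) := by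
    rw [Module.Finite.iff_addGroup_fg]
    infer_instance
  have hfree : Module.Free ℤ (Additive G) := Module.free_of_finite_type_torsion_free'
  set b := Module.finBasis ℤ (Additive G) with hb
  have h1 : ∀ a : Fin _ → ℤ, gam (fun i => (((b i).toMul : G) : Kˣ)) a =
      (((b.equivFun.symm a).toMul : G) : Kˣ) := by
    intro a
    rw [b.equivFun_symm_apply, gam]
    simp
  refine ⟨_, fun i => (((b i).toMul : G) : Kˣ), ?_, ?_, ?_⟩
  · intro a a' haa
    rw [h1, h1] at haa
    exact b.equivFun.symm.injective (Additive.toMul.injective (Subtype.ext haa))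
  · intro a
    rw [h1]
    have h2 := ((b.equivFun.symm a).toMul : G).2
    apply Subgroup.closure_mono _ h2
    intro z hz
    rw [Finset.mem_coe, Finset.mem_image] at hz
    obtain ⟨s, hs, rfl⟩ := hz
    exact ⟨s, hs, rfl⟩
  · intro s hs
    have hsG : s ^ q ∈ G := by
      apply Subgroup.subset_closure
      rw [Finset.mem_coe, Finset.mem_image]
      exact ⟨s, hs, rfl⟩
    refine ⟨b.equivFun (Additive.ofMul ⟨s ^ q, hsG⟩), ?_⟩
    rw [h1, LinearEquiv.symm_apply_apply]
    rfl

end Helper17.LinRec
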