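import Mathlib
import Pool.Agent.Helper17.LinRec.Core

set_option autoImplicit false

namespace Helper17.LinRec

open AddMonoidAlgebra Filter Topology

variable {K : Type*} [Field K] [NumberField K] {r : ℕ}

theorem norm_ev_int (τ : K →+* ℂ) (g : Fin r → Kˣ) (u : AddMonoidAlgebra K (Mon r)) (n : ℕ)
    (a : ℤ) (h : ev g n u = (a : K)) : ‖τ (ev g n u)‖ = |(a : ℝ)| := by
  rw [h, map_intCast, Complex.norm_intCast]

theorem not_atBot (τ : K →+* ℂ) (g : Fin r → Kˣ) (hg : Function.Injective (gam g))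
    (X : AddMonoidAlgebra K (Mon r)) (x : ℕ → ℤ)
    (hX : ∀ᶠ n : ℕ in atTop, ev g n X = (x n : K)) (m : Mon r) (hm : IsLead (om τ g) X m) :
    ¬ Tendsto (wt τ g m) atTop atBot := by
  intro h
  obtain ⟨C, hC, hC'⟩ := upper τ g X m hm.2
  have h1 : Tendsto (fun n : ℕ => C * Real.exp (wt τ g m n)) atTop (𝓝 0) := by
    have := (Real.tendsto_exp_atBot.comp h).const_mul C
    rwa [mul_zero] at this
  have h2 : Tendsto (fun n : ℕ => |(x n : ℝ)|) atTop (𝓝 0) := by
    apply squeeze_zero' (Eventually.of_forall fun n => abs_nonneg _) _ h1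
    filter_upwards [hX, eventually_ge_atTop 1] with n hn hn1
    rw [← norm_ev_int τ g X n (x n) hn]
    exact hC' n hn1
  have h3 := int_eventually_zero x h2
  apply hm.ne_zero
  apply eq_zero_of_eventually g hg X
  filter_upwards [hX, h3] with n hn hn3
  rw [hn, hn3, Int.cast_zero]

theorem wt_le_of_not_gap (τ : K →+* ℂ) (g : Fin r → Kˣ) (mx mF : Mon r)
    (hcon : ¬ Tendsto (fun n : ℕ => 2 * wt τ g mF n - wt τ g mx n) atTop atBot) :
    ∃ C : ℝ, ∀ n : ℕ, 1 ≤ n → wt τ g mx n ≤ 2 * wt τ g mF n + C := by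
  rcases le_total (om τ g mx) (om τ g (mF + mF)) with h | h
  · obtain ⟨C, hC⟩ := wt_le_of_om_le τ g h
    refine ⟨C, fun n hn => ?_⟩
    have := hC n hn
    rw [wt_add] at this
    linarith
  · by_cases he : lam τ g (mF + mF).1 = lam τ g mx.1 ∧ (mF + mF).2 = mx.2
    · refine ⟨0, fun n _ => ?_⟩
      have h1 : wt τ g (mF + mF) n = wt τ g mx n := by
        simp only [wt]
        rw [he.1, he.2]
      rw [wt_add] at h1
      linarith
    · exfalso
      apply hcon
      have h1 := tendsto_wt_sub τ g h he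
      rw [Real.tendsto_exp_comp_nhds_zero] at h1
      refine h1.congr (fun n => ?_)
      rw [wt_add]
      ring

theorem gap (τ : K →+* ℂ) (g : Fin r → Kˣ) (hg : Function.Injective (gam g))
    (X F : AddMonoidAlgebra K (Mon r)) (x f : ℕ → ℤ)
    (hX : ∀ᶠ n : ℕ in atTop, ev g n X = (x n : K))
    (hF : ∀ᶠ n : ℕ in atTop, ev g n F = (f n : K))
    (H : ∀ ε : ℝ, 0 < ε → ∀ᶠ n : ℕ in atTop, |(f n : ℝ)| ≤ ε * Real.sqrt |(x n : ℝ)|)
    (mx mF : Mon r) (hmx : IsLead (om τ g) X mx) (hmF : IsLead (om τ g) F mF) :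
    Tendsto (fun n : ℕ => 2 * wt τ g mF n - wt τ g mx n) atTop atBot := by
  by_contra hcon
  obtain ⟨C, hC⟩ := wt_le_of_not_gap τ g mx mF hcon
  obtain ⟨D, hD, hD'⟩ := upper τ g X mx hmx.2
  apply lower τ g hg F mF hmF
  rw [Metric.tendsto_nhds]
  intro δ hδ
  set E := Real.sqrt (D * Real.exp C) with hE
  have hE0 : 0 < E := Real.sqrt_pos.mpr (mul_pos hD (Real.exp_pos _))
  filter_upwards [hX, hF, H (δ / (2 * E)) (by positivity), eventually_ge_atTop 1] with n hn hn1 hn2 hn3
  rw [Real.dist_eq, sub_zero, abs_of_nonneg (by positivity), norm_ev_int τ g F n (f n) hn1,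
    div_lt_iff₀ (Real.exp_pos _)]
  have h1 : |(x n : ℝ)| ≤ D * Real.exp C * (Real.exp (wt τ g mF n)) ^ 2 := by
    have h2 := hD' n hn3
    rw [norm_ev_int τ g X n (x n) hn] at h2
    refine h2.trans ?_
    rw [mul_assoc, ← Real.exp_nat_mul, ← Real.exp_add]
    apply mul_le_mul_of_nonneg_left _ hD.le
    apply Real.exp_le_exp.mpr
    have := hC n hn3
    push_cast
    linarith
  have h2 : Real.sqrt |(x n : ℝ)| ≤ E * Real.exp (wt τ g mF n) := by
    rw [hE, Real.sqrt_le_left (by positivity), mul_pow, Real.sq_sqrt (by positivity)]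
    exact h1
  calc |(f n : ℝ)| ≤ δ / (2 * E) * Real.sqrt |(x n : ℝ)| := hn2
    _ ≤ δ / (2 * E) * (E * Real.exp (wt τ g mF n)) := by
        apply mul_le_mul_of_nonneg_left h2 (by positivity)
    _ = δ / 2 * Real.exp (wt τ g mF n) := by
        field_simp
    _ < δ * Real.exp (wt τ g mF n) := by
        apply mul_lt_mul_of_pos_right _ (Real.exp_pos _)
        linarith

/-- The derivation attached to the `i`-th coordinate. -/
def phi (K : Type*) [Field K] {r : ℕ} (i : Fin r) : Mon r →+ K where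
  toFun m := (m.1 i : K)
  map_zero' := by simp
  map_add' a b := by simp

/-- The derivation attached to the polynomial degree. -/
def phi' (K : Type*) [Field K] {r : ℕ} : Mon r →+ K where
  toFun m := (m.2 : K)
  map_zero' := by simp
  map_add' a b := by simp

theorem lead_three (τ : K →+* ℂ) (g : Fin r → Kˣ) (hg : Function.Injective (gam g))
    (X : AddMonoidAlgebra K (Mon r)) (x : ℕ → ℤ)
    (hX : ∀ᶠ n : ℕ in atTop, ev g n X = (x n : K))
    (mx mF : Mon r) (hmx : IsLead (om τ g) X mx)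
    (hgap : Tendsto (fun n : ℕ => 2 * wt τ g mF n - wt τ g mx n) atTop atBot) :
    om τ g mF < om τ g (mx + mx + mx) := by
  by_contra hcon
  rw [not_lt] at hcon
  obtain ⟨C, hC⟩ := wt_le_of_om_le τ g hcon
  apply not_atBot τ g hg X x hX mx hmx
  have h1 : Tendsto (fun n : ℕ => ((2 * wt τ g mF n - wt τ g mx n) + 2 * C) / 5) atTop atBot :=
    (tendsto_atBot_add_const_right _ _ hgap).atBot_div_const (by norm_num)
  apply tendsto_atBot_mono' _ _ h1
  filter_upwards [eventually_ge_atTop 1] with n hn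
  have h2 := hC n hn
  rw [wt_add, wt_add] at h2
  linarith

/-- Mason-Stothers type inequality for integer valued exponential polynomials: at some place the
growth of `X ^ 3 - Y ^ 2` is at least the square root of the growth of `X`. -/
theorem core_gap (g : Fin r → Kˣ) (hg : Function.Injective (gam g))
    (X Y : AddMonoidAlgebra K (Mon r)) (x y : ℕ → ℤ)
    (hX : ∀ᶠ n : ℕ in atTop, ev g n X = (x n : K))
    (hY : ∀ᶠ n : ℕ in atTop, ev g n Y = (y n : K))
    (hXi : ∀ m, X.coeff m ≠ 0 → IsIntegral ℤ ((gam g m.1 : Kˣ) : K))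
    (hYi : ∀ m, Y.coeff m ≠ 0 → IsIntegral ℤ ((gam g m.1 : Kˣ) : K))
    (hX0 : X ≠ 0) (hF0 : X ^ 3 - Y ^ 2 ≠ 0) :
    ∃ (τ : K →+* ℂ) (mx mF : Mon r), IsLead (om τ g) X mx ∧ IsLead (om τ g) (X ^ 3 - Y ^ 2) mF ∧
      ∃ C : ℝ, ∀ n : ℕ, 1 ≤ n → wt τ g mx n ≤ 2 * wt τ g mF n + C := by
  by_contra hne
  set F := X ^ 3 - Y ^ 2 with hFdef
  have hgapAll : ∀ (τ : K →+* ℂ) (mx mF : Mon r), IsLead (om τ g) X mx → IsLead (om τ g) F mF →
      Tendsto (fun n : ℕ => 2 * wt τ g mF n - wt τ g mx n) atTop atBot := by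
    intro τ mx mF hmx hmF
    by_contra hcon
    exact hne ⟨τ, mx, mF, hmx, hmF, wt_le_of_not_gap τ g mx mF hcon⟩
  -- the size of W
  have hW : ∀ φ : Mon r →+ K, (∀ m, IsIntegral ℤ (φ m)) →
      2 * (X * der φ Y) - 3 * (Y * der φ X) = 0 := by
    intro φ hφ
    by_contra hW0
    set W := 2 * (X * der φ Y) - 3 * (Y * der φ X) with hWdef
    have hlim : ∀ τ : K →+* ℂ, Tendsto (fun n => ‖τ (ev g n W)‖) atTop (𝓝 0) := by
      intro τ
      obtain ⟨mx, hmx⟩ := exists_isLead (om τ g) X hX0
      obtain ⟨mF, hmF⟩ := exists_isLead (om τ g) F hF0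
      obtain ⟨mW, hmW⟩ := exists_isLead (om τ g) W hW0
      have hinj := om_injective τ g
      have hgap := hgapAll τ mx mF hmx hmF
      have h3 := lead_three τ g hg X x hX mx mF hmx hgap
      have hX3 : IsLead (om τ g) (X ^ 3) (mx + mx + mx) := by
        rw [pow_succ, pow_two]
        exact (hmx.mul hinj hmx).mul hinj hmx
      have hY2 : IsLead (om τ g) (Y ^ 2) (mx + mx + mx) := by
        have : Y ^ 2 = X ^ 3 - F := by rw [hFdef]; ring
        rw [this]
        apply isLead_sub_of_lt hX3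
        intro a ha
        exact lt_of_le_of_lt (hmF.2 a ha) h3
      have hY0 : Y ≠ 0 := by
        rintro h0
        rw [h0] at hY2
        exact hY2.ne_zero (by simp)
      obtain ⟨my, hmy⟩ := exists_isLead (om τ g) Y hY0
      have hmy2 : my + my = mx + mx + mx := by
        have h4 : IsLead (om τ g) (Y ^ 2) (my + my) := by
          rw [pow_two]
          exact hmy.mul hinj hmy
        exact h4.unique hinj hY2
      have hYW := hmy.mul hinj hmW
      have hkey := der_key φ X Y F hFdef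
      have hle : om τ g (my + mW) ≤ om τ g (mF + mx) := by
        have h5 := hYW.1
        rw [hWdef, hkey, coeff_sub, Finsupp.sub_apply] at h5
        have h6 : (F * der φ X).coeff (my + mW) ≠ 0 ∨ (X * der φ F).coeff (my + mW) ≠ 0 := by
          by_contra hcon
          push Not at hcon
          apply h5
          have h7 := coeff_natCast_mul 3 (F * der φ X) (my + mW)
          rw [hcon.1, mul_zero] at h7
          have h8 : (((3 : ℕ) : AddMonoidAlgebra K (Mon r)) * (F * der φ X)) =
            3 * (F * der φ X) := by norm_num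
          rw [h8] at h7
          rw [h7, hcon.2, sub_zero]
        rcases h6 with h6 | h6
        · obtain ⟨a, b, ha, hb, hab⟩ := exists_of_coeff_mul_ne_zero _ _ _ h6
          rw [← hab, map_add, map_add]
          apply add_le_add (hmF.2 a ha)
          apply hmx.2 b
          intro h0
          rw [coeff_der, h0, mul_zero] at hb
          exact hb rfl
        · obtain ⟨a, b, ha, hb, hab⟩ := exists_of_coeff_mul_ne_zero _ _ _ h6
          rw [← hab, map_add, map_add, add_comm (om τ g mF)]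
          apply add_le_add (hmx.2 a ha)
          apply hmF.2 b
          intro h0
          rw [coeff_der, h0, mul_zero] at hb
          exact hb rfl
      obtain ⟨C, hC⟩ := wt_le_of_om_le τ g hle
      have hwt : Tendsto (fun n : ℕ => wt τ g mW n) atTop atBot := by
        have h9 : Tendsto (fun n : ℕ => ((2 * wt τ g mF n - wt τ g mx n) + 2 * C) / 2)
            atTop atBot :=
          (tendsto_atBot_add_const_right _ _ hgap).atBot_div_const (by norm_num)
        apply tendsto_atBot_mono' _ _ h9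
        filter_upwards [eventually_ge_atTop 1] with n hn
        have h10 := hC n hn
        have h11 : wt τ g (my + my) n = wt τ g (mx + mx + mx) n := by rw [hmy2]
        rw [wt_add, wt_add] at h10
        rw [wt_add, wt_add, wt_add] at h11
        linarith
      obtain ⟨D, hD, hD'⟩ := upper τ g W mW hmW.2
      have h12 : Tendsto (fun n : ℕ => D * Real.exp (wt τ g mW n)) atTop (𝓝 0) := by
        have := (Real.tendsto_exp_atBot.comp hwt).const_mul D
        rwa [mul_zero] at this
      apply squeeze_zero' (Eventually.of_forall fun n => norm_nonneg _) _ h12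
      filter_upwards [eventually_ge_atTop 1] with n hn
      exact hD' n hn
    obtain ⟨NX, hNX, hNX'⟩ := integral_multiple X
    obtain ⟨NY, hNY, hNY'⟩ := integral_multiple Y
    have hint : ∀ᶠ n : ℕ in atTop, IsIntegral ℤ (((NX : K) * NY) * ev g n W) := by
      filter_upwards [hX, hY] with n hn hn'
      have h1 := integral_ev_der g φ hφ X NX hNX' hXi n
      have h2 := integral_ev_der g φ hφ Y NY hNY' hYi n
      have hz : ∀ a : ℤ, IsIntegral ℤ (a : K) := fun a => isIntegral_algebraMap (R := ℤ) (A := K)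
      have h3 : ((NX : K) * NY) * ev g n W =
          ((2 * NX * x n : ℤ) : K) * ((NY : K) * ev g n (der φ Y)) -
          ((3 * NY * y n : ℤ) : K) * ((NX : K) * ev g n (der φ X)) := by
        rw [hWdef, map_sub, map_mul, map_mul, map_mul, map_mul, hn, hn', map_ofNat, map_ofNat]
        push_cast
        ring
      rw [h3]
      exact ((hz _).mul h2).sub ((hz _).mul h1)
    have hzero := alg_eventually_zero (fun n => ((NX : K) * NY) * ev g n W) hint (by
      intro τ
      have h1 := (hlim τ).const_mul ‖τ ((NX : K) * NY)‖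
      rw [mul_zero] at h1
      refine h1.congr (fun n => ?_)
      rw [← norm_mul, ← map_mul])
    apply hW0
    apply eq_zero_of_eventually g hg W
    filter_upwards [hzero] with n hn
    rcases mul_eq_zero.mp hn with h | h
    · exfalso
      rcases mul_eq_zero.mp h with h' | h'
      · exact hNX (by exact_mod_cast h')
      · exact hNY (by exact_mod_cast h')
    · exact h
  -- conclusion
  obtain ⟨τ⟩ : Nonempty (K →+* ℂ) := inferInstance
  obtain ⟨mx, hmx⟩ := exists_isLead (om τ g) X hX0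
  obtain ⟨mF, hmF⟩ := exists_isLead (om τ g) F hF0
  have hinj := om_injective τ g
  have hphi : ∀ φ : Mon r →+ K, (∀ m, IsIntegral ℤ (φ m)) → φ mF = 3 * φ mx := by
    intro φ hφ
    have h1 := der_key φ X Y F hFdef
    rw [hW φ hφ, mul_zero] at h1
    have h2 : (3 * (F * der φ X) - X * der φ F).coeff (mF + mx) = 0 := by rw [← h1]; rfl
    rw [coeff_sub, Finsupp.sub_apply] at h2
    have h7 := coeff_natCast_mul 3 (F * der φ X) (mF + mx)
    have h8 : (((3 : ℕ) : AddMonoidAlgebra K (Mon r)) * (F * der φ X)) =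
      3 * (F * der φ X) := by norm_num
    rw [h8] at h7
    have hsup : ∀ (u : AddMonoidAlgebra K (Mon r)) (m : Mon r), IsLead (om τ g) u m →
        ∀ a, (der φ u).coeff a ≠ 0 → om τ g a ≤ om τ g m := by
      intro u m hu a ha
      apply hu.2 a
      intro h0
      rw [coeff_der, h0, mul_zero] at ha
      exact ha rfl
    have h9 : (F * der φ X).coeff (mF + mx) = F.coeff mF * (φ mx * X.coeff mx) := by
      rw [coeff_mul_lead hinj hmF.2 (hsup X mx hmx), coeff_der]
    have h10 : (X * der φ F).coeff (mF + mx) = X.coeff mx * (φ mF * F.coeff mF) := by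
      rw [add_comm mF mx, coeff_mul_lead hinj hmx.2 (hsup F mF hmF), coeff_der]
    rw [h7, h9, h10] at h2
    have h11 : (X.coeff mx * F.coeff mF) * (3 * φ mx - φ mF) = 0 := by
      rw [← h2]
      push_cast
      ring
    rcases mul_eq_zero.mp h11 with h | h
    · exact absurd h (mul_ne_zero hmx.1 hmF.1)
    · exact (sub_eq_zero.mp h).symm
  have hmF3 : mF = mx + mx + mx := by
    apply Prod.ext
    · funext i
      have h1 := hphi (phi K i) (fun m => isIntegral_algebraMap (R := ℤ) (A := K))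
      change ((mF.1 i : ℤ) : K) = 3 * ((mx.1 i : ℤ) : K) at h1
      have h2 : mF.1 i = 3 * mx.1 i := by exact_mod_cast h1
      rw [h2]
      simp only [Prod.fst_add, Pi.add_apply]
      ring
    · have h1 := hphi (phi' K) (fun m => by
        have := isIntegral_algebraMap (R := ℤ) (A := K) (x := (m.2 : ℤ))
        change IsIntegral ℤ ((m.2 : ℕ) : K)
        simpa using this)
      change ((mF.2 : ℕ) : K) = 3 * ((mx.2 : ℕ) : K) at h1
      have h2 : mF.2 = 3 * mx.2 := by exact_mod_cast h1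
      rw [h2]
      simp only [Prod.snd_add]
      ring
  have h3 := lead_three τ g hg X x hX mx mF hmx (hgapAll τ mx mF hmx hmF)
  rw [hmF3] at h3
  exact lt_irrefl _ h3

theorem core (g : Fin r → Kˣ) (hg : Function.Injective (gam g))
    (X Y : AddMonoidAlgebra K (Mon r)) (x y : ℕ → ℤ)
    (hX : ∀ᶠ n : ℕ in atTop, ev g n X = (x n : K))
    (hY : ∀ᶠ n : ℕ in atTop, ev g n Y = (y n : K))
    (hXi : ∀ m, X.coeff m ≠ 0 → IsIntegral ℤ ((gam g m.1 : Kˣ) : K))
    (hYi : ∀ m, Y.coeff m ≠ 0 → IsIntegral ℤ ((gam g m.1 : Kˣ) : K))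
    (H : ∀ ε : ℝ, 0 < ε → ∀ᶠ n : ℕ in atTop,
      |((x n ^ 3 - y n ^ 2 : ℤ) : ℝ)| ≤ ε * Real.sqrt |(x n : ℝ)|) :
    X ^ 3 = Y ^ 2 := by
  by_contra hne
  have hF0 : X ^ 3 - Y ^ 2 ≠ 0 := sub_ne_zero.mpr hne
  set f : ℕ → ℤ := fun n => x n ^ 3 - y n ^ 2 with hfdef
  have hF : ∀ᶠ n : ℕ in atTop, ev g n (X ^ 3 - Y ^ 2) = (f n : K) := by
    filter_upwards [hX, hY] with n hn hn'
    rw [map_sub, map_pow, map_pow, hn, hn', hfdef]
    push_cast
    ring
  have hX0 : X ≠ 0 := by
    rintro h0
    apply hF0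
    apply eq_zero_of_eventually g hg _
    filter_upwards [hX, hF, H 1 one_pos] with n hn hn' hn''
    rw [h0, map_zero] at hn
    have hx0 : x n = 0 := by
      have : ((x n : ℤ) : K) = 0 := hn.symm
      exact_mod_cast this
    have h1 : |((x n ^ 3 - y n ^ 2 : ℤ) : ℝ)| ≤ 1 * Real.sqrt |(x n : ℝ)| := hn''
    rw [hx0, Int.cast_zero, abs_zero, Real.sqrt_zero, mul_zero] at h1
    have h2 : ((0 ^ 3 - y n ^ 2 : ℤ) : ℝ) = 0 := by
      apply abs_eq_zero.mp
      exact le_antisymm h1 (abs_nonneg _)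
    have h3 : (0 ^ 3 - y n ^ 2 : ℤ) = 0 := by exact_mod_cast h2
    rw [hn', hfdef]
    simp only
    rw [hx0, h3, Int.cast_zero]
  obtain ⟨τ, mx, mF, hmx, hmF, C, hC⟩ := core_gap g hg X Y x y hX hY hXi hYi hX0 hF0
  have hgap := gap τ g hg X (X ^ 3 - Y ^ 2) x f hX hF H mx mF hmx hmF
  have h1 : ∀ᶠ n : ℕ in atTop, 2 * wt τ g mF n - wt τ g mx n < -C :=
    hgap.eventually (eventually_lt_atBot _)
  obtain ⟨n, hn, hn1⟩ := (h1.and (eventually_ge_atTop 1)).exists
  have := hC n hn1
  linarith

end Helper17.LinRec
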