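import Mathlib
import Pool.Agent.Helper17.LinRec.Main
import Pool.Agent.Helper17.LinRec.Closed
import Pool.Agent.Helper17.LinRec.Group
import Pool.Agent.Helper17.LinRec.Dens

set_option autoImplicit false

namespace Helper17.LinRec

open Filter Topology

theorem ev_single {K : Type*} [Field K] {r : ℕ} (g : Fin r → Kˣ) (k : ℕ) (m : Mon r) (c : K) :
    ev g k (AddMonoidAlgebra.single m c) = c * ((k : K) ^ m.2 * ((gam g m.1 : Kˣ) : K) ^ k) := by
  change (AddMonoidAlgebra.lift K K (Mon r) (chi g k)) (AddMonoidAlgebra.single m c) = _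
  rw [AddMonoidAlgebra.lift_single]
  rfl

theorem build {K : Type*} [Field K] [CharZero K] {r : ℕ} (g : Fin r → Kˣ) (q s : ℕ)
    (p : K →₀ Polynomial K) (hp : ∀ γ ∈ p.support, IsIntegral ℤ γ)
    (hg : ∀ γ ∈ p.support, ∃ a, ((gam g a : Kˣ) : K) = γ ^ q) :
    ∃ X : AddMonoidAlgebra K (Mon r),
      (∀ k : ℕ, ev g k X = p.sum (fun γ P => P.eval ((q * k + s : ℕ) : K) * γ ^ (q * k + s))) ∧
      ∀ m, X.coeff m ≠ 0 → IsIntegral ℤ ((gam g m.1 : Kˣ) : K) := by
  classical
  have hg' : ∀ γ : K, ∃ a : Fin r → ℤ, γ ∈ p.support → ((gam g a : Kˣ) : K) = γ ^ q := by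
    intro γ
    by_cases h : γ ∈ p.support
    · obtain ⟨a, ha⟩ := hg γ h
      exact ⟨a, fun _ => ha⟩
    · exact ⟨0, fun h' => absurd h' h⟩
  choose a ha using hg'
  set P : K → Polynomial K := fun γ =>
    (p γ).comp (Polynomial.C (q : K) * Polynomial.X + Polynomial.C (s : K)) with hP
  refine ⟨∑ γ ∈ p.support, ∑ j ∈ Finset.range ((P γ).natDegree + 1),
    AddMonoidAlgebra.single (a γ, j) ((P γ).coeff j * γ ^ s), ?_, ?_⟩
  · intro k
    rw [map_sum, Finsupp.sum]
    apply Finset.sum_congr rfl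
    intro γ hγ
    rw [map_sum]
    have h1 : (P γ).eval (k : K) = (p γ).eval ((q * k + s : ℕ) : K) := by
      rw [hP]
      simp [Polynomial.eval_comp]
    rw [← h1, Polynomial.eval_eq_sum_range, Finset.sum_mul]
    apply Finset.sum_congr rfl
    intro j _
    rw [ev_single]
    simp only
    rw [ha γ hγ, ← pow_mul, pow_add]
    ring
  · intro m hm
    rw [AddMonoidAlgebra.coeff_sum, Finsupp.finsetSum_apply] at hm
    obtain ⟨γ, hγ, h1⟩ := Finset.exists_ne_zero_of_sum_ne_zero hm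
    rw [AddMonoidAlgebra.coeff_sum, Finsupp.finsetSum_apply] at h1
    obtain ⟨j, _, h2⟩ := Finset.exists_ne_zero_of_sum_ne_zero h1
    have h3 : (a γ, j) = m := by
      by_contra h
      apply h2
      rw [AddMonoidAlgebra.coeff_single, Finsupp.single_apply, if_neg h]
    rw [← h3, ha γ hγ]
    exact (hp γ hγ).pow q

theorem eventually_of_residues (P : ℕ → Prop) (q : ℕ) (hq : 0 < q)
    (h : ∀ s < q, ∀ᶠ k : ℕ in atTop, P (q * k + s)) : ∀ᶠ n in atTop, P n := by
  have h1 : ∀ᶠ k : ℕ in atTop, ∀ s ∈ Finset.range q, P (q * k + s) := by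
    rw [Filter.eventually_all_finset]
    intro s hs
    exact h s (Finset.mem_range.mp hs)
  obtain ⟨N, hN⟩ := eventually_atTop.mp h1
  rw [eventually_atTop]
  refine ⟨N * q, fun n hn => ?_⟩
  have h2 := hN (n / q) ((Nat.le_div_iff_mul_le hq).mpr hn) (n % q)
    (Finset.mem_range.mpr (Nat.mod_lt n hq))
  rwa [Nat.div_add_mod] at h2

theorem tendsto_residue (q s : ℕ) (hq : 0 < q) : Tendsto (fun k : ℕ => q * k + s) atTop atTop := by
  apply tendsto_atTop_mono (fun k => ?_) tendsto_id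
  have := Nat.le_mul_of_pos_left k hq
  simp only [id]
  lia

/-- Splitting two integer linear recurrences into nondegenerate exponential polynomials along the
residue classes of a suitable modulus. -/
theorem setup_of_splits (K : Type*) [Field K] [NumberField K] (x y : ℕ → ℤ)
    (E E' : LinearRecurrence ℤ) (hE : E.IsSolution x) (hE' : E'.IsSolution y)
    (hs1 : (E.charPoly.map (algebraMap ℤ K)).Splits)
    (hs2 : (E'.charPoly.map (algebraMap ℤ K)).Splits) :
    ∃ (q r : ℕ) (g : Fin r → Kˣ), 0 < q ∧ Function.Injective (gam g) ∧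
      ((∀ z : ℂ, Polynomial.aeval z E.charPoly = 0 ∨ Polynomial.aeval z E'.charPoly = 0 →
        z.im = 0) → ∀ (τ : K →+* ℂ) (a : Fin r → ℤ), ∃ t : ℝ, 0 < t ∧
          τ ((gam g a : Kˣ) : K) = t) ∧
      ∀ s : ℕ, ∃ X Y : AddMonoidAlgebra K (Mon r),
        (∀ᶠ k : ℕ in atTop, ev g k X = ((x (q * k + s) : ℤ) : K)) ∧
        (∀ᶠ k : ℕ in atTop, ev g k Y = ((y (q * k + s) : ℤ) : K)) ∧
        (∀ m, X.coeff m ≠ 0 → IsIntegral ℤ ((gam g m.1 : Kˣ) : K)) ∧
        (∀ m, Y.coeff m ≠ 0 → IsIntegral ℤ ((gam g m.1 : Kˣ) : K)) := by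
  classical
  obtain ⟨p, hp, hp'⟩ := EP.of_isSolution E x hE hs1
  obtain ⟨p', hp2, hp2'⟩ := EP.of_isSolution E' y hE' hs2
  obtain ⟨q0, hq0, hqt0⟩ := exists_torsion_exp K
  set q := 2 * q0 with hqdef
  have hq : 0 < q := by lia
  have hqt : ∀ z : Kˣ, IsOfFinOrder z → z ^ q = 1 := by
    intro z hz
    rw [hqdef, mul_comm, pow_mul, hqt0 z hz, one_pow]
  have hne : ∀ γ ∈ p.support ∪ p'.support, γ ≠ 0 := by
    intro γ hγ
    rw [Finset.mem_union] at hγ
    rcases hγ with h | h
    · exact (hp _ h).1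
    · exact (hp2 _ h).1
  have hU : ∃ S : Finset Kˣ, (∀ γ ∈ p.support ∪ p'.support, ∃ u ∈ S, (u : K) = γ) ∧
      ∀ u ∈ S, (u : K) ∈ p.support ∪ p'.support := by
    refine ⟨(p.support ∪ p'.support).attach.image (fun γ => Units.mk0 γ.1 (hne γ.1 γ.2)),
      fun γ hγ => ?_, fun u hu => ?_⟩
    · exact ⟨_, Finset.mem_image_of_mem _ (Finset.mem_attach _ ⟨γ, hγ⟩), rfl⟩
    · rw [Finset.mem_image] at hu
      obtain ⟨γ, _, rfl⟩ := hu
      exact γ.2
  obtain ⟨S, hS, hS'⟩ := hU
  obtain ⟨r, g, hg, hgc, hgS⟩ := exists_gens q hqt S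
  have hgS' : ∀ γ ∈ p.support ∪ p'.support, ∃ a, ((gam g a : Kˣ) : K) = γ ^ q := by
    intro γ hγ
    obtain ⟨u, hu, rfl⟩ := hS γ hγ
    obtain ⟨a, ha⟩ := hgS u hu
    exact ⟨a, by rw [ha, Units.val_pow_eq_pow_val]⟩
  refine ⟨q, r, g, hq, hg, ?_, ?_⟩
  · intro hreal τ a
    have key : ∀ z ∈ Subgroup.closure {z : Kˣ | ∃ s ∈ S, z = s ^ q},
        ∃ t : ℝ, 0 < t ∧ τ ((z : Kˣ) : K) = t := by
      intro z hz
      induction hz using Subgroup.closure_induction with
      | mem z hz =>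
        obtain ⟨s, hs, rfl⟩ := hz
        have h1 : (τ (s : K)).im = 0 := by
          apply hreal
          have hev : ∀ P : Polynomial ℤ, Polynomial.aeval (s : K) P = 0 →
              Polynomial.aeval (τ (s : K)) P = 0 := by
            intro P hP
            have h2 := Polynomial.aeval_algHom_apply τ.toIntAlgHom (s : K) P
            rw [hP, map_zero] at h2
            exact h2
          have h3 := hS' s hs
          rw [Finset.mem_union] at h3
          rcases h3 with h | h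
          · exact Or.inl (hev _ (hp _ h).2.2)
          · exact Or.inr (hev _ (hp2 _ h).2.2)
        have h2 : τ (s : K) = ((τ (s : K)).re : ℂ) := by
          apply Complex.ext
          · simp
          · simp [h1]
        have h3 : (τ (s : K)).re ≠ 0 := by
          intro h0
          rw [h0, Complex.ofReal_zero] at h2
          have : (s : K) = 0 := τ.injective (by rw [h2, map_zero])
          exact s.ne_zero this
        refine ⟨(τ (s : K)).re ^ q, ?_, ?_⟩
        · rw [hqdef, pow_mul]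
          positivity
        · rw [Units.val_pow_eq_pow_val, map_pow]
          nth_rewrite 1 [h2]
          push_cast
          rfl
      | one => exact ⟨1, one_pos, by simp⟩
      | mul z w _ _ hz hw =>
        obtain ⟨t, ht, h1⟩ := hz
        obtain ⟨t', ht', h1'⟩ := hw
        refine ⟨t * t', mul_pos ht ht', ?_⟩
        rw [Units.val_mul, map_mul, h1, h1']
        push_cast
        rfl
      | inv z _ hz =>
        obtain ⟨t, ht, h1⟩ := hz
        refine ⟨t⁻¹, inv_pos.mpr ht, ?_⟩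
        rw [Units.val_inv_eq_inv_val, map_inv₀, h1]
        push_cast
        rfl
    exact key _ (hgc a)
  · intro s
    have htend := tendsto_residue q s hq
    obtain ⟨X, hX, hXi⟩ := build g q s p (fun γ hγ => (hp γ hγ).2.1)
      (fun γ hγ => hgS' γ (Finset.mem_union_left _ hγ))
    obtain ⟨Y, hY, hYi⟩ := build g q s p' (fun γ hγ => (hp2 γ hγ).2.1)
      (fun γ hγ => hgS' γ (Finset.mem_union_right _ hγ))
    refine ⟨X, Y, ?_, ?_, hXi, hYi⟩
    · filter_upwards [htend.eventually hp'] with k hk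
      rw [hX k]
      exact hk.symm
    · filter_upwards [htend.eventually hp2'] with k hk
      rw [hY k]
      exact hk.symm

/-- The bound for the square root of `x` in terms of the growth of the difference. -/
theorem sqrt_bound {K : Type*} [Field K] [NumberField K] {r : ℕ} (τ : K →+* ℂ) (g : Fin r → Kˣ)
    (X : AddMonoidAlgebra K (Mon r)) (x : ℕ → ℤ)
    (hX : ∀ᶠ n : ℕ in atTop, ev g n X = (x n : K)) (mx mF : Mon r)
    (hmx : IsLead (om τ g) X mx)
    (C : ℝ) (hC : ∀ n : ℕ, 1 ≤ n → wt τ g mx n ≤ 2 * wt τ g mF n + C) :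
    ∃ D : ℝ, 0 < D ∧ ∀ᶠ n : ℕ in atTop,
      Real.sqrt |(x n : ℝ)| ≤ D * Real.exp (wt τ g mF n) := by
  obtain ⟨D, hD, hD'⟩ := upper τ g X mx hmx.2
  have hE0 : 0 < Real.sqrt (D * Real.exp C) := Real.sqrt_pos.mpr (mul_pos hD (Real.exp_pos _))
  refine ⟨Real.sqrt (D * Real.exp C), hE0, ?_⟩
  filter_upwards [hX, eventually_ge_atTop 1] with n hn hn3
  have h1 : |(x n : ℝ)| ≤ D * Real.exp C * (Real.exp (wt τ g mF n)) ^ 2 := by
    have h2 := hD' n hn3
    rw [norm_ev_int τ g X n (x n) hn] at h2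
    refine h2.trans ?_
    rw [mul_assoc, ← Real.exp_nat_mul, ← Real.exp_add]
    apply mul_le_mul_of_nonneg_left _ hD.le
    apply Real.exp_le_exp.mpr
    have := hC n hn3
    push_cast
    linarith
  rw [Real.sqrt_le_left (by positivity), mul_pow, Real.sq_sqrt (by positivity)]
  exact h1

theorem Sparse.of_eventually {P Q : ℕ → Prop} {δ : ℝ} (hδ : 0 < δ) (hQ : Sparse Q (δ / 2))
    (h : ∀ᶠ n in atTop, P n → Q n) : Sparse P δ := by
  classical
  obtain ⟨N0, hN0⟩ := eventually_atTop.mp h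
  obtain ⟨N1, hN1⟩ := exists_nat_gt (N0 / (δ / 2))
  filter_upwards [hQ, eventually_ge_atTop N1] with N hN hN' A hA
  have hsplit : A ⊆ Finset.range N0 ∪ A.filter (fun n => N0 ≤ n) := by
    intro n hn
    rw [Finset.mem_union, Finset.mem_range, Finset.mem_filter]
    rcases lt_or_ge n N0 with h | h
    · exact Or.inl h
    · exact Or.inr ⟨hn, h⟩
  have h2 := hN (A.filter (fun n => N0 ≤ n)) (by
    intro n hn
    rw [Finset.mem_filter] at hn
    exact ⟨(hA n hn.1).1, hN0 n hn.2 (hA n hn.1).2⟩)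
  have h3 := (Finset.card_le_card hsplit).trans (Finset.card_union_le _ _)
  rw [Finset.card_range] at h3
  have h4 : (A.card : ℝ) ≤ N0 + (A.filter (fun n => N0 ≤ n)).card := by exact_mod_cast h3
  have h5 : (N0 : ℝ) / (δ / 2) < N := lt_of_lt_of_le hN1 (by exact_mod_cast hN')
  rw [div_lt_iff₀ (by positivity)] at h5
  linarith

theorem Sparse.of_residues {P : ℕ → Prop} {δ : ℝ} (hδ : 0 < δ) (q : ℕ) (hq : 0 < q)
    (h : ∀ s < q, Sparse (fun k => P (q * k + s)) (δ / 2)) : Sparse P δ := by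
  classical
  have h1 : ∀ᶠ M : ℕ in atTop, ∀ s ∈ Finset.range q, ∀ A : Finset ℕ,
      (∀ k ∈ A, k < M ∧ P (q * k + s)) → (A.card : ℝ) ≤ δ / 2 * M := by
    rw [Filter.eventually_all_finset]
    intro s hs
    exact h s (Finset.mem_range.mp hs)
  obtain ⟨M0, hM0⟩ := eventually_atTop.mp h1
  filter_upwards [eventually_ge_atTop (M0 * q), eventually_ge_atTop q] with N hN hNq A hA
  set M := N / q + 1 with hM
  have hM0M : M0 ≤ M := by
    have := (Nat.le_div_iff_mul_le hq).mpr hN
    lia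
  have hcard : A.card = ∑ s ∈ Finset.range q, (A.filter (fun n => n % q = s)).card :=
    Finset.card_eq_sum_card_fiberwise (fun n _ => by
      rw [Finset.mem_coe, Finset.mem_range]
      exact Nat.mod_lt n hq)
  have hterm : ∀ s ∈ Finset.range q, ((A.filter (fun n => n % q = s)).card : ℝ) ≤ δ / 2 * M := by
    intro s hs
    have h2 := hM0 M hM0M s hs ((A.filter (fun n => n % q = s)).image (fun n => n / q)) (by
      intro k hk
      rw [Finset.mem_image] at hk
      obtain ⟨n, hn, rfl⟩ := hk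
      rw [Finset.mem_filter] at hn
      refine ⟨?_, ?_⟩
      · have := Nat.div_le_div_right (c := q) (hA n hn.1).1.le
        lia
      · rw [← hn.2, Nat.div_add_mod]
        exact (hA n hn.1).2)
    rwa [Finset.card_image_of_injOn] at h2
    intro n hn n' hn' hnn
    have e1 := (Finset.mem_filter.mp (Finset.mem_coe.mp hn)).2
    have e2 := (Finset.mem_filter.mp (Finset.mem_coe.mp hn')).2
    simp only at hnn
    rw [← Nat.div_add_mod n q, ← Nat.div_add_mod n' q, hnn, e1, e2]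
  have hsum : (A.card : ℝ) ≤ q * (δ / 2 * M) := by
    rw [hcard]
    push_cast
    calc ∑ s ∈ Finset.range q, ((A.filter (fun n => n % q = s)).card : ℝ)
        ≤ ∑ _s ∈ Finset.range q, δ / 2 * M := Finset.sum_le_sum hterm
      _ = q * (δ / 2 * M) := by rw [Finset.sum_const, Finset.card_range, nsmul_eq_mul]
  have hqM : (q : ℝ) * M ≤ 2 * N := by
    have h3 : q * M ≤ 2 * N := by
      have := Nat.div_mul_le_self N q
      have h4 : q * M = N / q * q + q := by rw [hM]; ring
      lia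
    exact_mod_cast h3
  nlinarith

theorem parts_of_splits (K : Type*) [Field K] [NumberField K] (x y : ℕ → ℤ)
    (E E' : LinearRecurrence ℤ) (hE : E.IsSolution x) (hE' : E'.IsSolution y)
    (hs1 : (E.charPoly.map (algebraMap ℤ K)).Splits)
    (hs2 : (E'.charPoly.map (algebraMap ℤ K)).Splits) :
    ((∀ ε : ℝ, 0 < ε → ∀ᶠ n : ℕ in atTop,
      |((x n ^ 3 - y n ^ 2 : ℤ) : ℝ)| ≤ ε * Real.sqrt |(x n : ℝ)|) →
      ∀ᶠ n in atTop, x n ^ 3 = y n ^ 2) ∧
    (∀ δ : ℝ, 0 < δ → ∃ c : ℝ, 0 < c ∧ Sparse (fun n => x n ^ 3 ≠ y n ^ 2 ∧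
      |((x n ^ 3 - y n ^ 2 : ℤ) : ℝ)| ≤ c * Real.sqrt |(x n : ℝ)|) δ) ∧
    ((∀ z : ℂ, Polynomial.aeval z E.charPoly = 0 ∨ Polynomial.aeval z E'.charPoly = 0 →
        z.im = 0) → ∃ c : ℝ, 0 < c ∧ ∀ᶠ n in atTop, x n ^ 3 ≠ y n ^ 2 →
      c * Real.sqrt |(x n : ℝ)| ≤ |((x n ^ 3 - y n ^ 2 : ℤ) : ℝ)|) := by
  classical
  obtain ⟨q, r, g, hq, hg, hreal, hXY⟩ := setup_of_splits K x y E E' hE hE' hs1 hs2
  refine ⟨?_, ?_, ?_⟩
  · intro H
    apply eventually_of_residues _ q hq
    intro s _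
    have htend := tendsto_residue q s hq
    obtain ⟨X, Y, hX', hY', hXi, hYi⟩ := hXY s
    have hcore := core g hg X Y (fun k => x (q * k + s)) (fun k => y (q * k + s)) hX' hY' hXi hYi
      (fun ε hε => htend.eventually (H ε hε))
    filter_upwards [hX', hY'] with k hk hk'
    have h1 := congrArg (ev g k) hcore
    rw [map_pow, map_pow, hk, hk'] at h1
    exact_mod_cast h1
  · intro δ hδ
    have hres : ∀ s : ℕ, ∃ c : ℝ, 0 < c ∧ Sparse (fun k => x (q * k + s) ^ 3 ≠ y (q * k + s) ^ 2 ∧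
        |((x (q * k + s) ^ 3 - y (q * k + s) ^ 2 : ℤ) : ℝ)| ≤
          c * Real.sqrt |(x (q * k + s) : ℝ)|) (δ / 2) := by
      intro s
      obtain ⟨X, Y, hX, hY, hXi, hYi⟩ := hXY s
      have hF : ∀ᶠ k : ℕ in atTop, ev g k (X ^ 3 - Y ^ 2) =
          ((x (q * k + s) ^ 3 - y (q * k + s) ^ 2 : ℤ) : K) := by
        filter_upwards [hX, hY] with k hk hk'
        rw [map_sub, map_pow, map_pow, hk, hk']
        push_cast
        ring
      have hfalse : Sparse (fun _ => False) (δ / 2 / 2) := by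
        refine Eventually.of_forall (fun N A hA => ?_)
        have hAe : A = ∅ := by
          rw [Finset.eq_empty_iff_forall_notMem]
          intro n hn
          exact (hA n hn).2
        rw [hAe, Finset.card_empty, Nat.cast_zero]
        positivity
      by_cases hF0 : X ^ 3 - Y ^ 2 = 0
      · refine ⟨1, one_pos, Sparse.of_eventually (by positivity) hfalse ?_⟩
        filter_upwards [hF] with k hk h
        rw [hF0, map_zero] at hk
        have : x (q * k + s) ^ 3 - y (q * k + s) ^ 2 = 0 := by exact_mod_cast hk.symm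
        exact h.1 (sub_eq_zero.mp this)
      by_cases hX0 : X = 0
      · refine ⟨1, one_pos, Sparse.of_eventually (by positivity) hfalse ?_⟩
        filter_upwards [hX] with k hk h
        rw [hX0, map_zero] at hk
        have hx0 : x (q * k + s) = 0 := by exact_mod_cast hk.symm
        have h2 := h.2
        rw [hx0, Int.cast_zero, abs_zero, Real.sqrt_zero, mul_zero] at h2
        have h3 : ((0 ^ 3 - y (q * k + s) ^ 2 : ℤ) : ℝ) = 0 :=
          abs_eq_zero.mp (le_antisymm h2 (abs_nonneg _))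
        have h4 : (0 ^ 3 - y (q * k + s) ^ 2 : ℤ) = 0 := by exact_mod_cast h3
        apply h.1
        rw [hx0]
        exact sub_eq_zero.mp h4
      obtain ⟨τ, mx, mF, hmx, hmF, C, hC⟩ := core_gap g hg X Y (fun k => x (q * k + s))
        (fun k => y (q * k + s)) hX hY hXi hYi hX0 hF0
      obtain ⟨D, hD, hD'⟩ := sqrt_bound τ g X (fun k => x (q * k + s)) hX mx mF hmx C hC
      obtain ⟨c, hc, hc'⟩ := lower_sparse τ g hg (X ^ 3 - Y ^ 2) mF hmF (δ / 2 / 2)
        (by positivity)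
      refine ⟨c / D, by positivity, Sparse.of_eventually (by positivity) hc' ?_⟩
      filter_upwards [hF, hD'] with k hk hk' h
      rw [norm_ev_int τ g _ k _ hk]
      refine h.2.trans ?_
      calc c / D * Real.sqrt |(x (q * k + s) : ℝ)| ≤ c / D * (D * Real.exp (wt τ g mF k)) := by
            apply mul_le_mul_of_nonneg_left hk' (by positivity)
        _ = c * Real.exp (wt τ g mF k) := by field_simp
    choose c hc hc' using hres
    obtain ⟨s0, hs0, hmin⟩ := Finset.exists_min_image (Finset.range q) c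
      ⟨0, Finset.mem_range.mpr hq⟩
    refine ⟨c s0, hc s0, Sparse.of_residues hδ q hq (fun s hs => ?_)⟩
    filter_upwards [hc' s] with N hN A hA
    apply hN A
    intro n hn
    refine ⟨(hA n hn).1, (hA n hn).2.1, (hA n hn).2.2.trans ?_⟩
    apply mul_le_mul_of_nonneg_right _ (Real.sqrt_nonneg _)
    exact hmin s (Finset.mem_range.mpr hs)
  · intro hr
    have hpos := hreal hr
    have hres : ∀ s : ℕ, ∃ c : ℝ, 0 < c ∧ ∀ᶠ k : ℕ in atTop,
        x (q * k + s) ^ 3 ≠ y (q * k + s) ^ 2 → c * Real.sqrt |(x (q * k + s) : ℝ)| ≤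
        |((x (q * k + s) ^ 3 - y (q * k + s) ^ 2 : ℤ) : ℝ)| := by
      intro s
      obtain ⟨X, Y, hX, hY, hXi, hYi⟩ := hXY s
      have hF : ∀ᶠ k : ℕ in atTop, ev g k (X ^ 3 - Y ^ 2) =
          ((x (q * k + s) ^ 3 - y (q * k + s) ^ 2 : ℤ) : K) := by
        filter_upwards [hX, hY] with k hk hk'
        rw [map_sub, map_pow, map_pow, hk, hk']
        push_cast
        ring
      by_cases hF0 : X ^ 3 - Y ^ 2 = 0
      · refine ⟨1, one_pos, ?_⟩
        filter_upwards [hF] with k hk h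
        rw [hF0, map_zero] at hk
        have : x (q * k + s) ^ 3 - y (q * k + s) ^ 2 = 0 := by exact_mod_cast hk.symm
        exact absurd (sub_eq_zero.mp this) h
      by_cases hX0 : X = 0
      · refine ⟨1, one_pos, ?_⟩
        filter_upwards [hX] with k hk h
        rw [hX0, map_zero] at hk
        have hx0 : x (q * k + s) = 0 := by exact_mod_cast hk.symm
        rw [hx0, Int.cast_zero, abs_zero, Real.sqrt_zero, mul_zero]
        exact abs_nonneg _
      obtain ⟨τ, mx, mF, hmx, hmF, C, hC⟩ := core_gap g hg X Y (fun k => x (q * k + s))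
        (fun k => y (q * k + s)) hX hY hXi hYi hX0 hF0
      obtain ⟨D, hD, hD'⟩ := sqrt_bound τ g X (fun k => x (q * k + s)) hX mx mF hmx C hC
      obtain ⟨c, hc, hc'⟩ := lower_real τ g hg (X ^ 3 - Y ^ 2) mF hmF (hpos τ)
      refine ⟨c / D, by positivity, ?_⟩
      filter_upwards [hF, hD', hc'] with k hk hk' hk'' _
      rw [norm_ev_int τ g _ k _ hk] at hk''
      refine le_trans ?_ hk''
      calc c / D * Real.sqrt |(x (q * k + s) : ℝ)| ≤ c / D * (D * Real.exp (wt τ g mF k)) := by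
            apply mul_le_mul_of_nonneg_left hk' (by positivity)
        _ = c * Real.exp (wt τ g mF k) := by field_simp
    choose c hc hc' using hres
    obtain ⟨s0, hs0, hmin⟩ := Finset.exists_min_image (Finset.range q) c
      ⟨0, Finset.mem_range.mpr hq⟩
    refine ⟨c s0, hc s0, ?_⟩
    apply eventually_of_residues _ q hq
    intro s hs
    filter_upwards [hc' s] with k hk h
    refine le_trans ?_ (hk h)
    apply mul_le_mul_of_nonneg_right _ (Real.sqrt_nonneg _)
    exact hmin s (Finset.mem_range.mpr hs)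

theorem parts (x y : ℕ → ℤ) (E E' : LinearRecurrence ℤ) (hE : E.IsSolution x)
    (hE' : E'.IsSolution y) :
    ((∀ ε : ℝ, 0 < ε → ∀ᶠ n : ℕ in atTop,
      |((x n ^ 3 - y n ^ 2 : ℤ) : ℝ)| ≤ ε * Real.sqrt |(x n : ℝ)|) →
      ∀ᶠ n in atTop, x n ^ 3 = y n ^ 2) ∧
    (∀ δ : ℝ, 0 < δ → ∃ c : ℝ, 0 < c ∧ Sparse (fun n => x n ^ 3 ≠ y n ^ 2 ∧
      |((x n ^ 3 - y n ^ 2 : ℤ) : ℝ)| ≤ c * Real.sqrt |(x n : ℝ)|) δ) ∧
    ((∀ z : ℂ, Polynomial.aeval z E.charPoly = 0 ∨ Polynomial.aeval z E'.charPoly = 0 →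
        z.im = 0) → ∃ c : ℝ, 0 < c ∧ ∀ᶠ n in atTop, x n ^ 3 ≠ y n ^ 2 →
      c * Real.sqrt |(x n : ℝ)| ≤ |((x n ^ 3 - y n ^ 2 : ℤ) : ℝ)|) := by
  set f : Polynomial ℚ := (E.charPoly * E'.charPoly).map (algebraMap ℤ ℚ) with hf
  have hf0 : f ≠ 0 :=
    ((E.charPoly_monic.mul E'.charPoly_monic).map (algebraMap ℤ ℚ)).ne_zero
  have hnf : NumberField (Polynomial.SplittingField f) := { }
  have hsp := Polynomial.SplittingField.splits f
  have hne : f.map (algebraMap ℚ (Polynomial.SplittingField f)) ≠ 0 :=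
    (Polynomial.map_ne_zero hf0)
  have key : ∀ P : Polynomial ℤ, P ∣ E.charPoly * E'.charPoly →
      (P.map (algebraMap ℤ (Polynomial.SplittingField f))).Splits := by
    intro P hP
    have h1 : P.map (algebraMap ℤ ℚ) ∣ f := by
      rw [hf]
      exact Polynomial.map_dvd _ hP
    have h2 := hsp.of_dvd hne (Polynomial.map_dvd (algebraMap ℚ (Polynomial.SplittingField f)) h1)
    rw [Polynomial.map_map] at h2
    have e : ((algebraMap ℚ (Polynomial.SplittingField f)).comp (algebraMap ℤ ℚ)) =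
        algebraMap ℤ (Polynomial.SplittingField f) := RingHom.ext_int _ _
    rwa [e] at h2
  exact parts_of_splits (Polynomial.SplittingField f) x y E E' hE hE'
    (key _ (dvd_mul_right _ _)) (key _ (dvd_mul_left _ _))

end Helper17.LinRec
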